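import Pool.Agent.K3.Stein

/-! # Norm forms and symbols: the values of `Eu u` are killed by `{u, ·}`, the values of `N9` by
`{u, x, ·}`; an isotropic vector kills the symbols. -/

set_option autoImplicit false

namespace Pool.K3

section algebra

variable {R : Type*} [CommRing R]

theorem aux_norm {ω u t : R} (hω : ω ^ 2 + ω + 1 = 0) (ht : t ^ 3 = u) (a0 a1 a2 : R) :
    (a0 + a1 * t + a2 * t ^ 2) * (a0 + ω * a1 * t + ω ^ 2 * a2 * t ^ 2) *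
      (a0 + ω ^ 2 * a1 * t + ω * a2 * t ^ 2) =
    a0 ^ 3 + u * a1 ^ 3 + u ^ 2 * a2 ^ 3 - 3 * u * a0 * a1 * a2 := by
  grind

theorem aux_m0 {ω u t : R} (ht : t ^ 3 = u) (a0 a1 a2 b0 b1 b2 : R) :
    (a0 * b0 + u * (ω * a1 * b2 + ω ^ 2 * a2 * b1)) +
      (a0 * b1 + ω * a1 * b0 + u * (ω ^ 2 * a2 * b2)) * t +
      (a0 * b2 + ω * a1 * b1 + ω ^ 2 * a2 * b0) * t ^ 2 =
    (a0 + ω * a1 * t + ω ^ 2 * a2 * t ^ 2) * (b0 + b1 * t + b2 * t ^ 2) := by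
  grind

theorem aux_m1 {ω u t : R} (hω : ω ^ 2 + ω + 1 = 0) (ht : t ^ 3 = u) (a0 a1 a2 b0 b1 b2 : R) :
    (a0 * b0 + u * (ω * a1 * b2 + ω ^ 2 * a2 * b1)) +
      ω * (a0 * b1 + ω * a1 * b0 + u * (ω ^ 2 * a2 * b2)) * t +
      ω ^ 2 * (a0 * b2 + ω * a1 * b1 + ω ^ 2 * a2 * b0) * t ^ 2 =
    (a0 + ω ^ 2 * a1 * t + ω * a2 * t ^ 2) * (b0 + ω * b1 * t + ω ^ 2 * b2 * t ^ 2) := by
  grind

theorem aux_m2 {ω u t : R} (hω : ω ^ 2 + ω + 1 = 0) (ht : t ^ 3 = u) (a0 a1 a2 b0 b1 b2 : R) :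
    (a0 * b0 + u * (ω * a1 * b2 + ω ^ 2 * a2 * b1)) +
      ω ^ 2 * (a0 * b1 + ω * a1 * b0 + u * (ω ^ 2 * a2 * b2)) * t +
      ω * (a0 * b2 + ω * a1 * b1 + ω ^ 2 * a2 * b0) * t ^ 2 =
    (a0 + a1 * t + a2 * t ^ 2) * (b0 + ω ^ 2 * b1 * t + ω * b2 * t ^ 2) := by
  grind

theorem aux_tr {ω u t : R} (hω : ω ^ 2 + ω + 1 = 0) (ht : t ^ 3 = u)
    (a0 a1 a2 b0 b1 b2 c0 c1 c2 : R) :
    3 * (a0 * (b0 * c0 + u * (ω * b1 * (ω * c2) + ω ^ 2 * b2 * (ω ^ 2 * c1)))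
      + u * a1 * (b0 * (ω * c2) + ω * b1 * (ω ^ 2 * c1) + ω ^ 2 * b2 * c0)
      + u * a2 * (b0 * (ω ^ 2 * c1) + ω * b1 * c0 + u * (ω ^ 2 * b2 * (ω * c2)))) =
    (a0 + a1 * t + a2 * t ^ 2) * (b0 + ω * b1 * t + ω ^ 2 * b2 * t ^ 2) *
      (c0 + ω ^ 2 * c1 * t + ω * c2 * t ^ 2) +
    (a0 + ω * a1 * t + ω ^ 2 * a2 * t ^ 2) * (b0 + ω ^ 2 * b1 * t + ω * b2 * t ^ 2) *
      (c0 + c1 * t + c2 * t ^ 2) +
    (a0 + ω ^ 2 * a1 * t + ω * a2 * t ^ 2) * (b0 + b1 * t + b2 * t ^ 2) *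
      (c0 + ω * c1 * t + ω ^ 2 * c2 * t ^ 2) := by
  grind

end algebra

/-- coordinates of `σ(a) * b` -/
def m0 {F : Type*} [Field F] (ω u a0 a1 a2 b0 b1 b2 : F) : F :=
  a0 * b0 + u * (ω * a1 * b2 + ω ^ 2 * a2 * b1)

/-- coordinates of `σ(a) * b` -/
def m1 {F : Type*} [Field F] (ω u a0 a1 a2 b0 b1 b2 : F) : F :=
  a0 * b1 + ω * a1 * b0 + u * (ω ^ 2 * a2 * b2)

/-- coordinates of `σ(a) * b` -/
def m2 {F : Type*} [Field F] (ω a0 a1 a2 b0 b1 b2 : F) : F :=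
  a0 * b2 + ω * a1 * b1 + ω ^ 2 * a2 * b0

section identity

variable {F : Type*} [Field F]

/-- generic form of the identity in twelve letters -/
theorem N9_identity_aux {ω u t : F} (hω : ω ^ 2 + ω + 1 = 0) (ht : t ^ 3 = u) (x : F)
    (a0 a1 a2 b0 b1 b2 c0 c1 c2 : F) :
    (Eu u b0 b1 b2 - x * Eu u c0 c1 c2) *
      (Eu u a0 a1 a2 + x * Eu u b0 b1 b2 + x ^ 2 * Eu u c0 c1 c2 -
        x * (3 * tr9 ω u a0 a1 a2 b0 b1 b2 c0 c1 c2)) =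
      Eu u (m0 ω u b0 b1 b2 a0 a1 a2 - x * m0 ω u c0 c1 c2 c0 c1 c2)
          (m1 ω u b0 b1 b2 a0 a1 a2 - x * m1 ω u c0 c1 c2 c0 c1 c2)
          (m2 ω b0 b1 b2 a0 a1 a2 - x * m2 ω c0 c1 c2 c0 c1 c2) +
      x * Eu u (m0 ω u b0 b1 b2 b0 b1 b2 - m0 ω u a0 a1 a2 c0 c1 c2)
          (m1 ω u b0 b1 b2 b0 b1 b2 - m1 ω u a0 a1 a2 c0 c1 c2)
          (m2 ω b0 b1 b2 b0 b1 b2 - m2 ω a0 a1 a2 c0 c1 c2) := by
  have hg0 : (m0 ω u b0 b1 b2 a0 a1 a2 - x * m0 ω u c0 c1 c2 c0 c1 c2) +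
      (m1 ω u b0 b1 b2 a0 a1 a2 - x * m1 ω u c0 c1 c2 c0 c1 c2) * t +
      (m2 ω b0 b1 b2 a0 a1 a2 - x * m2 ω c0 c1 c2 c0 c1 c2) * t ^ 2 =
      (b0 + ω * b1 * t + ω ^ 2 * b2 * t ^ 2) * (a0 + a1 * t + a2 * t ^ 2) -
        x * ((c0 + ω * c1 * t + ω ^ 2 * c2 * t ^ 2) * (c0 + c1 * t + c2 * t ^ 2)) := by
    simp only [m0, m1, m2]
    linear_combination aux_m0 (ω := ω) ht b0 b1 b2 a0 a1 a2 -
      x * aux_m0 (ω := ω) ht c0 c1 c2 c0 c1 c2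
  have hg1 : (m0 ω u b0 b1 b2 a0 a1 a2 - x * m0 ω u c0 c1 c2 c0 c1 c2) +
      ω * (m1 ω u b0 b1 b2 a0 a1 a2 - x * m1 ω u c0 c1 c2 c0 c1 c2) * t +
      ω ^ 2 * (m2 ω b0 b1 b2 a0 a1 a2 - x * m2 ω c0 c1 c2 c0 c1 c2) * t ^ 2 =
      (b0 + ω ^ 2 * b1 * t + ω * b2 * t ^ 2) * (a0 + ω * a1 * t + ω ^ 2 * a2 * t ^ 2) -
        x * ((c0 + ω ^ 2 * c1 * t + ω * c2 * t ^ 2) *
          (c0 + ω * c1 * t + ω ^ 2 * c2 * t ^ 2)) := by
    simp only [m0, m1, m2]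
    linear_combination aux_m1 hω ht b0 b1 b2 a0 a1 a2 - x * aux_m1 hω ht c0 c1 c2 c0 c1 c2
  have hg2 : (m0 ω u b0 b1 b2 a0 a1 a2 - x * m0 ω u c0 c1 c2 c0 c1 c2) +
      ω ^ 2 * (m1 ω u b0 b1 b2 a0 a1 a2 - x * m1 ω u c0 c1 c2 c0 c1 c2) * t +
      ω * (m2 ω b0 b1 b2 a0 a1 a2 - x * m2 ω c0 c1 c2 c0 c1 c2) * t ^ 2 =
      (b0 + b1 * t + b2 * t ^ 2) * (a0 + ω ^ 2 * a1 * t + ω * a2 * t ^ 2) -
        x * ((c0 + c1 * t + c2 * t ^ 2) * (c0 + ω ^ 2 * c1 * t + ω * c2 * t ^ 2)) := by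
    simp only [m0, m1, m2]
    linear_combination aux_m2 hω ht b0 b1 b2 a0 a1 a2 - x * aux_m2 hω ht c0 c1 c2 c0 c1 c2
  have hd0 : (m0 ω u b0 b1 b2 b0 b1 b2 - m0 ω u a0 a1 a2 c0 c1 c2) +
      (m1 ω u b0 b1 b2 b0 b1 b2 - m1 ω u a0 a1 a2 c0 c1 c2) * t +
      (m2 ω b0 b1 b2 b0 b1 b2 - m2 ω a0 a1 a2 c0 c1 c2) * t ^ 2 =
      (b0 + ω * b1 * t + ω ^ 2 * b2 * t ^ 2) * (b0 + b1 * t + b2 * t ^ 2) -
        (a0 + ω * a1 * t + ω ^ 2 * a2 * t ^ 2) * (c0 + c1 * t + c2 * t ^ 2) := by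
    simp only [m0, m1, m2]
    linear_combination aux_m0 (ω := ω) ht b0 b1 b2 b0 b1 b2 -
      aux_m0 (ω := ω) ht a0 a1 a2 c0 c1 c2
  have hd1 : (m0 ω u b0 b1 b2 b0 b1 b2 - m0 ω u a0 a1 a2 c0 c1 c2) +
      ω * (m1 ω u b0 b1 b2 b0 b1 b2 - m1 ω u a0 a1 a2 c0 c1 c2) * t +
      ω ^ 2 * (m2 ω b0 b1 b2 b0 b1 b2 - m2 ω a0 a1 a2 c0 c1 c2) * t ^ 2 =
      (b0 + ω ^ 2 * b1 * t + ω * b2 * t ^ 2) * (b0 + ω * b1 * t + ω ^ 2 * b2 * t ^ 2) -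
        (a0 + ω ^ 2 * a1 * t + ω * a2 * t ^ 2) * (c0 + ω * c1 * t + ω ^ 2 * c2 * t ^ 2) := by
    simp only [m0, m1, m2]
    linear_combination aux_m1 hω ht b0 b1 b2 b0 b1 b2 - aux_m1 hω ht a0 a1 a2 c0 c1 c2
  have hd2 : (m0 ω u b0 b1 b2 b0 b1 b2 - m0 ω u a0 a1 a2 c0 c1 c2) +
      ω ^ 2 * (m1 ω u b0 b1 b2 b0 b1 b2 - m1 ω u a0 a1 a2 c0 c1 c2) * t +
      ω * (m2 ω b0 b1 b2 b0 b1 b2 - m2 ω a0 a1 a2 c0 c1 c2) * t ^ 2 =
      (b0 + b1 * t + b2 * t ^ 2) * (b0 + ω ^ 2 * b1 * t + ω * b2 * t ^ 2) -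
        (a0 + a1 * t + a2 * t ^ 2) * (c0 + ω ^ 2 * c1 * t + ω * c2 * t ^ 2) := by
    simp only [m0, m1, m2]
    linear_combination aux_m2 hω ht b0 b1 b2 b0 b1 b2 - aux_m2 hω ht a0 a1 a2 c0 c1 c2
  have hA := aux_norm hω ht a0 a1 a2
  have hB := aux_norm hω ht b0 b1 b2
  have hC := aux_norm hω ht c0 c1 c2
  have hT := aux_tr hω ht a0 a1 a2 b0 b1 b2 c0 c1 c2
  have hG := aux_norm hω ht (m0 ω u b0 b1 b2 a0 a1 a2 - x * m0 ω u c0 c1 c2 c0 c1 c2)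
    (m1 ω u b0 b1 b2 a0 a1 a2 - x * m1 ω u c0 c1 c2 c0 c1 c2)
    (m2 ω b0 b1 b2 a0 a1 a2 - x * m2 ω c0 c1 c2 c0 c1 c2)
  have hD := aux_norm hω ht (m0 ω u b0 b1 b2 b0 b1 b2 - m0 ω u a0 a1 a2 c0 c1 c2)
    (m1 ω u b0 b1 b2 b0 b1 b2 - m1 ω u a0 a1 a2 c0 c1 c2)
    (m2 ω b0 b1 b2 b0 b1 b2 - m2 ω a0 a1 a2 c0 c1 c2)
  rw [hg0, hg1, hg2] at hG
  rw [hd0, hd1, hd2] at hD
  simp only [Eu, tr9]
  rw [← hG, ← hD, ← hA, ← hB, ← hC, hT]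
  generalize a0 + a1 * t + a2 * t ^ 2 = A0
  generalize a0 + ω * a1 * t + ω ^ 2 * a2 * t ^ 2 = A1
  generalize a0 + ω ^ 2 * a1 * t + ω * a2 * t ^ 2 = A2
  generalize b0 + b1 * t + b2 * t ^ 2 = B0
  generalize b0 + ω * b1 * t + ω ^ 2 * b2 * t ^ 2 = B1
  generalize b0 + ω ^ 2 * b1 * t + ω * b2 * t ^ 2 = B2
  generalize c0 + c1 * t + c2 * t ^ 2 = C0
  generalize c0 + ω * c1 * t + ω ^ 2 * c2 * t ^ 2 = C1
  generalize c0 + ω ^ 2 * c1 * t + ω * c2 * t ^ 2 = C2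
  ring

variable {ω : F} (hω : ω ^ 2 + ω + 1 = 0) (u x : F) (f : Fin 9 → F)

include hω in
/-- `(N(b) - x N(c)) * N9 = N(γ) + x N(δ)` -/
theorem N9_identity :
    (Eu u (f 3) (f 4) (f 5) - x * Eu u (f 6) (f 7) (f 8)) * N9 ω u x f =
      Eu u (m0 ω u (f 3) (f 4) (f 5) (f 0) (f 1) (f 2) -
            x * m0 ω u (f 6) (f 7) (f 8) (f 6) (f 7) (f 8))
          (m1 ω u (f 3) (f 4) (f 5) (f 0) (f 1) (f 2) -
            x * m1 ω u (f 6) (f 7) (f 8) (f 6) (f 7) (f 8))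
          (m2 ω (f 3) (f 4) (f 5) (f 0) (f 1) (f 2) -
            x * m2 ω (f 6) (f 7) (f 8) (f 6) (f 7) (f 8)) +
      x * Eu u (m0 ω u (f 3) (f 4) (f 5) (f 3) (f 4) (f 5) -
            m0 ω u (f 0) (f 1) (f 2) (f 6) (f 7) (f 8))
          (m1 ω u (f 3) (f 4) (f 5) (f 3) (f 4) (f 5) -
            m1 ω u (f 0) (f 1) (f 2) (f 6) (f 7) (f 8))
          (m2 ω (f 3) (f 4) (f 5) (f 3) (f 4) (f 5) -
            m2 ω (f 0) (f 1) (f 2) (f 6) (f 7) (f 8)) := by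
  set φ := algebraMap F (AlgebraicClosure F) with hφ
  obtain ⟨t, ht⟩ := IsAlgClosed.exists_pow_nat_eq (φ u) (n := 3) (by norm_num)
  have hω' : (φ ω) ^ 2 + φ ω + 1 = 0 := by
    rw [← map_pow, ← map_add, ← map_one φ, ← map_add, hω, map_zero]
  have key := N9_identity_aux hω' ht (φ x) (φ (f 0)) (φ (f 1)) (φ (f 2)) (φ (f 3)) (φ (f 4))
    (φ (f 5)) (φ (f 6)) (φ (f 7)) (φ (f 8))
  apply φ.injective
  simp only [N9, Eu, tr9, m0, m1, m2, map_mul, map_add, map_sub, map_pow, map_ofNat] at key ⊢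
  exact key

include hω in
/-- if `γ = δ = 0` then `N(b) = x N(c)` -/
theorem N9_iso_aux
    (g0 : m0 ω u (f 3) (f 4) (f 5) (f 0) (f 1) (f 2) -
            x * m0 ω u (f 6) (f 7) (f 8) (f 6) (f 7) (f 8) = 0)
    (g1 : m1 ω u (f 3) (f 4) (f 5) (f 0) (f 1) (f 2) -
            x * m1 ω u (f 6) (f 7) (f 8) (f 6) (f 7) (f 8) = 0)
    (g2 : m2 ω (f 3) (f 4) (f 5) (f 0) (f 1) (f 2) -
            x * m2 ω (f 6) (f 7) (f 8) (f 6) (f 7) (f 8) = 0)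
    (d0 : m0 ω u (f 3) (f 4) (f 5) (f 3) (f 4) (f 5) -
            m0 ω u (f 0) (f 1) (f 2) (f 6) (f 7) (f 8) = 0)
    (d1 : m1 ω u (f 3) (f 4) (f 5) (f 3) (f 4) (f 5) -
            m1 ω u (f 0) (f 1) (f 2) (f 6) (f 7) (f 8) = 0)
    (d2 : m2 ω (f 3) (f 4) (f 5) (f 3) (f 4) (f 5) -
            m2 ω (f 0) (f 1) (f 2) (f 6) (f 7) (f 8) = 0) :
    Eu u (f 3) (f 4) (f 5) - x * Eu u (f 6) (f 7) (f 8) = 0 := by
  have : Eu u (f 3) (f 4) (f 5) - x * Eu u (f 6) (f 7) (f 8) =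
      (m0 ω u (f 3) (f 4) (f 5) (f 0) (f 1) (f 2) -
            x * m0 ω u (f 6) (f 7) (f 8) (f 6) (f 7) (f 8)) * f 6 +
      u * ((m1 ω u (f 3) (f 4) (f 5) (f 0) (f 1) (f 2) -
            x * m1 ω u (f 6) (f 7) (f 8) (f 6) (f 7) (f 8)) * (ω * f 8) +
          (m2 ω (f 3) (f 4) (f 5) (f 0) (f 1) (f 2) -
            x * m2 ω (f 6) (f 7) (f 8) (f 6) (f 7) (f 8)) * (ω ^ 2 * f 7)) +
      (f 3 * (m0 ω u (f 3) (f 4) (f 5) (f 3) (f 4) (f 5) -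
            m0 ω u (f 0) (f 1) (f 2) (f 6) (f 7) (f 8)) +
      u * (ω * f 4 * (ω * (m2 ω (f 3) (f 4) (f 5) (f 3) (f 4) (f 5) -
            m2 ω (f 0) (f 1) (f 2) (f 6) (f 7) (f 8))) +
          ω ^ 2 * f 5 * (ω ^ 2 * (m1 ω u (f 3) (f 4) (f 5) (f 3) (f 4) (f 5) -
            m1 ω u (f 0) (f 1) (f 2) (f 6) (f 7) (f 8))))) := by
    clear g0 g1 g2 d0 d1 d2
    simp only [m0, m1, m2, Eu]
    grind
  rw [this, g0, g1, g2, d0, d1, d2]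
  ring

end identity

namespace Stein3

variable {F A : Type*} [Field F] [AddCommGroup A] (K : Stein3 F A)

/-- `{u, p³ + u q³, y} = 0` -/
theorem sym_bin {u : F} (hu : u ≠ 0) (p q y : F) : K.S u (p ^ 3 + u * q ^ 3) y = 0 := by
  rcases eq_or_ne (p ^ 3 + u * q ^ 3) 0 with hs | hs
  · rw [hs, K.z2]
  rcases eq_or_ne q 0 with rfl | hq
  · rw [zero_pow three_ne_zero, mul_zero, add_zero, K.cube2]
  rcases eq_or_ne p 0 with rfl | hp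
  · rw [zero_pow three_ne_zero, zero_add, K.mul2 _ _ _ _ hu (pow_ne_zero 3 hq), K.diag12,
      K.cube2, add_zero]
  have hp3 : p ^ 3 ≠ 0 := pow_ne_zero 3 hp
  have hq3 : q ^ 3 ≠ 0 := pow_ne_zero 3 hq
  have h := K.R12 y (mul_ne_zero hu hq3) hp3 hs (add_comm _ _)
  rw [K.cube2, K.div1 _ _ (mul_ne_zero hu hq3) hp3, K.mul1 _ _ _ _ hu hq3, K.cube1, K.cube1,
    add_zero, sub_zero] at h
  exact h.symm

/-- if `u` is a cube, all symbols `{u, ·, ·}` vanish -/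
theorem cube_div {u : F} {p q : F} (hq : q ≠ 0) (h : u * q ^ 3 = p ^ 3) (a b : F) :
    K.S u a b = 0 := by
  have : u = (p / q) ^ 3 := by
    rw [div_pow, ← h, mul_div_cancel_right₀ _ (pow_ne_zero 3 hq)]
  rw [this, K.cube1]

theorem Eu_mul {F : Type*} [Field F] (u v0 v1 v2 : F) :
    (v1 ^ 3 - u * v2 ^ 3) * Eu u v0 v1 v2 =
      (v0 * v1 - u * v2 ^ 2) ^ 3 + u * (v1 ^ 2 - v0 * v2) ^ 3 := by
  rw [Eu]
  ring

/-- an isotropic vector of the norm form kills `{u, ·, ·}` -/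
theorem Eu_iso {u v0 v1 v2 : F} (_hu : u ≠ 0) (h0 : Eu u v0 v1 v2 = 0)
    (hv : ¬(v0 = 0 ∧ v1 = 0 ∧ v2 = 0)) (a b : F) : K.S u a b = 0 := by
  have e := Eu_mul u v0 v1 v2
  rcases eq_or_ne v2 0 with rfl | h2
  · by_cases h1 : v1 = 0
    · subst h1
      exfalso
      apply hv
      rw [Eu] at h0
      have : v0 ^ 3 = 0 := by linear_combination h0
      exact ⟨pow_eq_zero_iff three_ne_zero |>.mp this, rfl, rfl⟩
    · rw [Eu] at h0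
      exact K.cube_div (p := -v0) h1 (by linear_combination h0) a b
  by_cases hD : v1 ^ 3 - u * v2 ^ 3 = 0
  · exact K.cube_div (p := v1) h2 (by linear_combination -hD) a b
  rw [h0, mul_zero] at e
  by_cases hq : v1 ^ 2 - v0 * v2 = 0
  · rw [hq, zero_pow three_ne_zero, mul_zero, add_zero] at e
    have hp : v0 * v1 - u * v2 ^ 2 = 0 := pow_eq_zero_iff three_ne_zero |>.mp e.symm
    exact absurd (by linear_combination v1 * hq + v2 * hp) hD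
  · exact K.cube_div (p := -(v0 * v1 - u * v2 ^ 2)) hq (by linear_combination -e) a b

/-- values of the norm form are killed by `{u, ·}` -/
theorem sym_Eu {u : F} (hu : u ≠ 0) (v0 v1 v2 y : F) : K.S u (Eu u v0 v1 v2) y = 0 := by
  rcases eq_or_ne (Eu u v0 v1 v2) 0 with h0 | h0
  · rw [h0, K.z2]
  by_cases hD : v1 ^ 3 - u * v2 ^ 3 = 0
  · rcases eq_or_ne v2 0 with rfl | h2
    · have h1 : v1 = 0 := by
        have : v1 ^ 3 = 0 := by linear_combination hD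
        exact pow_eq_zero_iff three_ne_zero |>.mp this
      subst h1
      have : Eu u v0 0 0 = v0 ^ 3 := by rw [Eu]; ring
      rw [this, K.cube2]
    · exact K.cube_div (p := v1) h2 (by linear_combination -hD) _ _
  have e := Eu_mul u v0 v1 v2
  have h1 := K.sym_bin hu (v0 * v1 - u * v2 ^ 2) (v1 ^ 2 - v0 * v2) y
  rw [← e, K.mul2 _ _ _ _ hD h0] at h1
  have h2 := K.sym_bin hu v1 (-v2) y
  rw [show v1 ^ 3 + u * (-v2) ^ 3 = v1 ^ 3 - u * v2 ^ 3 by ring] at h2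
  rw [h2, zero_add] at h1
  exact h1

theorem sym_mix {u x : F} (hx : x ≠ 0) {n m : F} (hn : ∀ y, K.S u n y = 0)
    (hm : ∀ y, K.S u m y = 0) : K.S u x (n + x * m) = 0 := by
  rcases eq_or_ne (n + x * m) 0 with hs | hs
  · rw [hs, K.z3]
  rcases eq_or_ne m 0 with rfl | hm0
  · rw [mul_zero, add_zero, K.swap23, hn, neg_zero]
  rcases eq_or_ne n 0 with rfl | hn0
  · rw [zero_add, K.mul3 _ _ _ _ hx hm0, K.diag23, K.swap23, hm, neg_zero, add_zero]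
  have h := K.R23 u (mul_ne_zero hx hm0) hn0 hs (add_comm _ _)
  rw [K.div2 _ _ (mul_ne_zero hx hm0) hn0, K.mul2 _ _ _ _ hx hm0, K.mul2 _ _ _ _ hx hm0, hm, hm,
    hn, K.swap23, hn, neg_zero, add_zero, add_zero, sub_zero] at h
  exact h.symm

theorem sym_mix0 {u x : F} (hx : x ≠ 0) {n m : F} (hn : ∀ y, K.S u n y = 0)
    (hm : ∀ y, K.S u m y = 0) (h0 : n + x * m = 0) (hm0 : m ≠ 0) (y : F) : K.S u x y = 0 := by
  have hxn : x = -n / m := by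
    field_simp
    linear_combination h0
  have hn0 : n ≠ 0 := by
    rintro rfl
    rw [zero_add] at h0
    exact mul_ne_zero hx hm0 h0
  rw [hxn, K.div2 _ _ (neg_ne_zero.mpr hn0) hm0, K.neg2, hn, hm, sub_zero]

theorem sym_Eu_neg {u : F} (hu : u ≠ 0) (v0 v1 v2 y : F) : K.S u (-Eu u v0 v1 v2) y = 0 := by
  rw [K.neg2, K.sym_Eu hu]

/-- values of the reduced norm form are killed by `{u, x, ·}` -/
theorem sym_N9 {ω u x : F} (hω : ω ^ 2 + ω + 1 = 0) (hu : u ≠ 0) (hx : x ≠ 0) (f : Fin 9 → F) :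
    K.S u x (N9 ω u x f) = 0 := by
  rcases eq_or_ne (N9 ω u x f) 0 with hN | hN
  · rw [hN, K.z3]
  have key := N9_identity hω u x f
  set D := Eu u (f 3) (f 4) (f 5) - x * Eu u (f 6) (f 7) (f 8) with hDdef
  have hD' : D = Eu u (f 3) (f 4) (f 5) + x * (-Eu u (f 6) (f 7) (f 8)) := by
    rw [hDdef]; ring
  by_cases hD : D = 0
  · by_cases hc : Eu u (f 6) (f 7) (f 8) = 0
    · have hb : Eu u (f 3) (f 4) (f 5) = 0 := by
        rw [hD', hc] at hD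
        linear_combination hD
      by_cases hcv : f 6 = 0 ∧ f 7 = 0 ∧ f 8 = 0
      · by_cases hbv : f 3 = 0 ∧ f 4 = 0 ∧ f 5 = 0
        · obtain ⟨h6, h7, h8⟩ := hcv
          obtain ⟨h3, h4, h5⟩ := hbv
          have : N9 ω u x f = Eu u (f 0) (f 1) (f 2) := by
            rw [N9, h3, h4, h5, h6, h7, h8]
            simp only [Eu, tr9]
            ring
          rw [this, K.swap23, K.sym_Eu hu, neg_zero]
        · exact K.Eu_iso hu hb hbv _ _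
      · exact K.Eu_iso hu hc hcv _ _
    · exact K.sym_mix0 hx (K.sym_Eu hu _ _ _) (K.sym_Eu_neg hu _ _ _) (hD'.symm.trans hD)
        (neg_ne_zero.mpr hc) _
  · have h1 := K.sym_mix hx (K.sym_Eu hu (f 3) (f 4) (f 5)) (K.sym_Eu_neg hu (f 6) (f 7) (f 8))
    rw [← hD'] at h1
    have h2 := K.sym_mix hx (K.sym_Eu hu (m0 ω u (f 3) (f 4) (f 5) (f 0) (f 1) (f 2) -
            x * m0 ω u (f 6) (f 7) (f 8) (f 6) (f 7) (f 8))
          (m1 ω u (f 3) (f 4) (f 5) (f 0) (f 1) (f 2) -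
            x * m1 ω u (f 6) (f 7) (f 8) (f 6) (f 7) (f 8))
          (m2 ω (f 3) (f 4) (f 5) (f 0) (f 1) (f 2) -
            x * m2 ω (f 6) (f 7) (f 8) (f 6) (f 7) (f 8)))
        (K.sym_Eu hu (m0 ω u (f 3) (f 4) (f 5) (f 3) (f 4) (f 5) -
            m0 ω u (f 0) (f 1) (f 2) (f 6) (f 7) (f 8))
          (m1 ω u (f 3) (f 4) (f 5) (f 3) (f 4) (f 5) -
            m1 ω u (f 0) (f 1) (f 2) (f 6) (f 7) (f 8))
          (m2 ω (f 3) (f 4) (f 5) (f 3) (f 4) (f 5) -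
            m2 ω (f 0) (f 1) (f 2) (f 6) (f 7) (f 8)))
    rw [← key, K.mul3 _ _ _ _ hD hN, h1, zero_add] at h2
    exact h2

/-- an isotropic vector of the reduced norm form kills `{u, x, ·}` -/
theorem N9_iso {ω u x : F} (hω : ω ^ 2 + ω + 1 = 0) (hu : u ≠ 0) (hx : x ≠ 0) {f : Fin 9 → F}
    (hf : f ≠ 0) (hN : N9 ω u x f = 0) (y : F) : K.S u x y = 0 := by
  have key := N9_identity hω u x f
  have key2 := N9_iso_aux hω u x f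
  set D := Eu u (f 3) (f 4) (f 5) - x * Eu u (f 6) (f 7) (f 8) with hDdef
  have hD' : D = Eu u (f 3) (f 4) (f 5) + x * (-Eu u (f 6) (f 7) (f 8)) := by
    rw [hDdef]; ring
  rw [hN, mul_zero] at key
  generalize hg0 : m0 ω u (f 3) (f 4) (f 5) (f 0) (f 1) (f 2) -
            x * m0 ω u (f 6) (f 7) (f 8) (f 6) (f 7) (f 8) = g0 at key key2
  generalize hg1 : m1 ω u (f 3) (f 4) (f 5) (f 0) (f 1) (f 2) -
            x * m1 ω u (f 6) (f 7) (f 8) (f 6) (f 7) (f 8) = g1 at key key2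
  generalize hg2 : m2 ω (f 3) (f 4) (f 5) (f 0) (f 1) (f 2) -
            x * m2 ω (f 6) (f 7) (f 8) (f 6) (f 7) (f 8) = g2 at key key2
  generalize hd0 : m0 ω u (f 3) (f 4) (f 5) (f 3) (f 4) (f 5) -
            m0 ω u (f 0) (f 1) (f 2) (f 6) (f 7) (f 8) = d0 at key key2
  generalize hd1 : m1 ω u (f 3) (f 4) (f 5) (f 3) (f 4) (f 5) -
            m1 ω u (f 0) (f 1) (f 2) (f 6) (f 7) (f 8) = d1 at key key2
  generalize hd2 : m2 ω (f 3) (f 4) (f 5) (f 3) (f 4) (f 5) -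
            m2 ω (f 0) (f 1) (f 2) (f 6) (f 7) (f 8) = d2 at key key2
  by_cases hD : D = 0
  · by_cases hc : Eu u (f 6) (f 7) (f 8) = 0
    · have hb : Eu u (f 3) (f 4) (f 5) = 0 := by
        rw [hD', hc] at hD
        linear_combination hD
      by_cases hcv : f 6 = 0 ∧ f 7 = 0 ∧ f 8 = 0
      · by_cases hbv : f 3 = 0 ∧ f 4 = 0 ∧ f 5 = 0
        · obtain ⟨h6, h7, h8⟩ := hcv
          obtain ⟨h3, h4, h5⟩ := hbv
          have hE : N9 ω u x f = Eu u (f 0) (f 1) (f 2) := by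
            rw [N9, h3, h4, h5, h6, h7, h8]
            simp only [Eu, tr9]
            ring
          refine K.Eu_iso hu (hE.symm.trans hN) ?_ _ _
          rintro ⟨h0, h1, h2⟩
          apply hf
          funext i
          fin_cases i <;> assumption
        · exact K.Eu_iso hu hb hbv _ _
      · exact K.Eu_iso hu hc hcv _ _
    · exact K.sym_mix0 hx (K.sym_Eu hu _ _ _) (K.sym_Eu_neg hu _ _ _) (hD'.symm.trans hD)
        (neg_ne_zero.mpr hc) _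
  · by_cases hδ : Eu u d0 d1 d2 = 0
    · have hγ : Eu u g0 g1 g2 = 0 := by
        rw [hδ] at key
        linear_combination -key
      by_cases hdv : d0 = 0 ∧ d1 = 0 ∧ d2 = 0
      · by_cases hgv : g0 = 0 ∧ g1 = 0 ∧ g2 = 0
        · exact absurd (key2 hgv.1 hgv.2.1 hgv.2.2 hdv.1 hdv.2.1 hdv.2.2) hD
        · exact K.Eu_iso hu hγ hgv _ _
      · exact K.Eu_iso hu hδ hdv _ _
    · exact K.sym_mix0 hx (K.sym_Eu hu _ _ _) (K.sym_Eu hu _ _ _) key.symm hδ _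

end Stein3

end Pool.K3
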