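import Pool.Agent.K3.Form
import Pool.Agent.K3.Norm

/-! # Block forms: single symbols and groups -/

set_option autoImplicit false

namespace Pool.K3

variable {F A : Type*} [Field F] [AddCommGroup A]

/-- the form of a single symbol, 12 variables -/
def AS (ω e w c : F) (v : Fin 9 ⊕ Fin 3 → F) : F :=
  c * N9 ω e w (fun i => v (Sum.inl i)) + w * Eu e (v (Sum.inr 0)) (v (Sum.inr 1)) (v (Sum.inr 2))

/-- the form of a group `{u,x,y} + {u,z,t}`, 21 variables -/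
def AG (ω u x y z t : F) (v : (Fin 9 ⊕ Fin 9) ⊕ Fin 3 → F) : F :=
  y * N9 ω u x (fun i => v (Sum.inl (Sum.inl i)))
    + x * t * N9 ω u z (fun i => v (Sum.inl (Sum.inr i)))
    + x * z * Eu u (v (Sum.inr 0)) (v (Sum.inr 1)) (v (Sum.inr 2))

theorem isForm_AS (ω e w c : F) : IsForm 3 (AS ω e w c) :=
  (((isForm_N9 ω e w).comp Sum.inl).const_mul c).add
    ((isForm_Eu_comp e (IsForm.coord (Sum.inr 0)) (IsForm.coord (Sum.inr 1))
      (IsForm.coord (Sum.inr 2))).const_mul w)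

theorem isForm_AG (ω u x y z t : F) : IsForm 3 (AG ω u x y z t) :=
  ((((isForm_N9 ω u x).comp fun i => Sum.inl (Sum.inl i)).const_mul y).add
    (((isForm_N9 ω u z).comp fun i => Sum.inl (Sum.inr i)).const_mul (x * t))).add
    ((isForm_Eu_comp u (IsForm.coord (Sum.inr 0)) (IsForm.coord (Sum.inr 1))
      (IsForm.coord (Sum.inr 2))).const_mul (x * z))

theorem N9_zero (ω u x : F) : N9 ω u x 0 = 0 := by
  simp [N9, Eu, tr9]

theorem Eu_zero (u : F) : Eu u 0 0 0 = 0 := by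
  simp [Eu]

/-- The symbol `{e,w,c}` at a node `T' = c' + b + e T`, with `{e,w,c'} = {e,w,c}` and
`{e,b} = {e,w}` (either of `c'`, `b` may be `0`). -/
theorem node_core (K : Stein3 F A) {e w c c' b T T' : F} (he : e ≠ 0) (hw : w ≠ 0)
    (hc : c ≠ 0) (hc' : c' ≠ 0 → K.S e w c' = K.S e w c)
    (hb : b ≠ 0 → ∀ y, K.S e b y = K.S e w y) (hT : T' = c' + b + e * T)
    (h : T ≠ 0 ∨ T' ≠ 0) :
    ∃ p q p' q' : F, p ≠ 0 ∧ q ≠ 0 ∧ p' ≠ 0 ∧ q' ≠ 0 ∧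
      K.S e w c = K.S T p q + K.S T' p' q' := by
  have h1 : (1 : F) ≠ 0 := one_ne_zero
  rcases eq_or_ne T 0 with rfl | hT0
  · have hT'0 : T' ≠ 0 := h.resolve_left (fun h => h rfl)
    rw [mul_zero, add_zero] at hT
    rcases eq_or_ne c' 0 with hc0 | hc0
    · rw [hc0, zero_add] at hT
      subst hT
      refine ⟨1, 1, c, e, h1, h1, hc, he, ?_⟩
      rw [K.z1, zero_add, K.cyc e T' c, hb hT'0]
    rcases eq_or_ne b 0 with hb0 | hb0
    · rw [hb0, add_zero] at hT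
      subst hT
      refine ⟨1, 1, e, w, h1, h1, he, hw, ?_⟩
      rw [K.z1, zero_add, K.cyc' e w T', hc' hT'0]
    · refine ⟨1, 1, e, b / c', h1, h1, he, div_ne_zero hb0 hc0, ?_⟩
      rw [K.z1, zero_add, K.cyc' e (b / c') T', ← K.R23 e hb0 hc0 hT'0 (by rw [hT, add_comm]),
        hb hb0, hc' hc0]
  have heT : e * T ≠ 0 := mul_ne_zero he hT0
  rcases eq_or_ne b 0 with hb0 | hb0
  · rw [hb0, add_zero] at hT
    rcases eq_or_ne c' 0 with hc0 | hc0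
    · rw [hc0, zero_add] at hT
      have hT'0 : T' ≠ 0 := by rw [hT]; exact heT
      refine ⟨w, c⁻¹, w, c, hw, inv_ne_zero hc, hw, hc, ?_⟩
      have : e = T' / T := by rw [hT, mul_div_cancel_right₀ _ hT0]
      rw [K.inv3]
      conv_lhs => rw [this]
      rw [K.div1 _ _ hT'0 hT0, sub_eq_add_neg, add_comm]
    rcases eq_or_ne T' 0 with hT'0 | hT'0
    · refine ⟨e, w, 1, 1, he, hw, h1, h1, ?_⟩
      have hce : c' = - (e * T) := by
        rw [hT'0] at hT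
        exact eq_neg_of_add_eq_zero_left hT.symm
      rw [K.one2, add_zero, K.cyc' e w T, ← hc' hc0, hce, K.neg3, K.mul3 _ _ _ _ he hT0, K.diag13,
        zero_add]
    · refine ⟨w, c'⁻¹, w, c' / (e * T), hw, inv_ne_zero hc0, hw, div_ne_zero hc0 heT, ?_⟩
      have h2 := K.R23 w hc0 heT hT'0 hT.symm
      rw [K.mul3 _ _ _ _ he hT0] at h2
      rw [K.cyc' w (c' / (e * T)) T', ← h2, K.inv3, K.cyc' w c' T, K.cyc e w c', hc' hc0]
      abel
  · rcases eq_or_ne (b + e * T) 0 with hz | hz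
    · have hbe : b = - (e * T) := eq_neg_of_add_eq_zero_left hz
      refine ⟨c, e, 1, 1, hc, he, h1, h1, ?_⟩
      rw [K.one2, add_zero, K.cyc e T c, ← hb hb0, hbe, K.neg2, K.mul2 _ _ _ _ he hT0, K.diag12,
        zero_add]
    have key : ∀ y, K.S e w y = K.S (e * T / b) (b + e * T) y - K.S T b y := by
      intro y
      have h2 := K.R12 y heT hb0 hz (add_comm _ _)
      rw [K.mul1 _ _ _ _ he hT0, hb hb0] at h2
      rw [← h2]
      abel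
    rcases eq_or_ne c' 0 with hc0 | hc0
    · rw [hc0, zero_add] at hT
      refine ⟨b, c⁻¹, c, e * T / b, hb0, inv_ne_zero hc, hc, div_ne_zero heT hb0, ?_⟩
      rw [key, K.inv3, K.cyc _ T' c, hT]
      abel
    rw [add_assoc] at hT
    rcases eq_or_ne T' 0 with hT'0 | hT'0
    · refine ⟨b, c'⁻¹, 1, 1, hb0, inv_ne_zero hc0, h1, h1, ?_⟩
      have hce : b + e * T = - c' := by
        rw [hT'0] at hT
        exact eq_neg_of_add_eq_zero_right hT.symm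
      rw [K.one2, add_zero, ← hc' hc0, key, hce, K.neg2, K.diag23, K.inv3, zero_sub]
    · refine ⟨b, c'⁻¹, e * T / b, (b + e * T) / c', hb0, inv_ne_zero hc0, div_ne_zero heT hb0,
        div_ne_zero hz hc0, ?_⟩
      rw [K.cyc' (e * T / b), ← K.R23 _ hz hc0 hT'0 (by rw [hT, add_comm]), K.inv3, ← hc' hc0, key]
      abel

theorem node_single (B : Base F) (K : Stein3 F A) {e w c T T' : F} (he : e ≠ 0) (hw : w ≠ 0)
    (hc : c ≠ 0) (v : Fin 9 ⊕ Fin 3 → F) (hT : T' = AS B.ω e w c v + e * T)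
    (h : T ≠ 0 ∨ T' ≠ 0) :
    ∃ p q p' q' : F, p ≠ 0 ∧ q ≠ 0 ∧ p' ≠ 0 ∧ q' ≠ 0 ∧
      K.S e w c = K.S T p q + K.S T' p' q' := by
  by_cases htriv : K.S e w c = 0
  · refine ⟨1, 1, 1, 1, one_ne_zero, one_ne_zero, one_ne_zero, one_ne_zero, ?_⟩
    rw [htriv, K.one2, K.one2, add_zero]
  refine node_core K he hw hc ?_ ?_ hT h
  · intro h0
    have hN := right_ne_zero_of_mul h0
    rw [K.mul3 _ _ _ _ hc hN, K.sym_N9 B.hω he hw, add_zero]
  · intro h0 y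
    have hN := right_ne_zero_of_mul h0
    rw [K.mul2 _ _ _ _ hw hN, K.sym_Eu he, add_zero]

theorem node_single_zero (B : Base F) (K : Stein3 F A) {e w c : F} (he : e ≠ 0) (hw : w ≠ 0)
    (hc : c ≠ 0) (v : Fin 9 ⊕ Fin 3 → F) (hv : v ≠ 0) (h : AS B.ω e w c v = 0) :
    K.S e w c = 0 := by
  rw [AS] at h
  by_cases hh : Eu e (v (Sum.inr 0)) (v (Sum.inr 1)) (v (Sum.inr 2)) = 0
  · by_cases hv2 : v (Sum.inr 0) = 0 ∧ v (Sum.inr 1) = 0 ∧ v (Sum.inr 2) = 0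
    · have hf : (fun i => v (Sum.inl i)) ≠ (0 : Fin 9 → F) := by
        intro hf
        apply hv
        funext i
        rcases i with i | i
        · exact congrFun hf i
        · fin_cases i
          · exact hv2.1
          · exact hv2.2.1
          · exact hv2.2.2
      rw [hh, mul_zero, add_zero] at h
      exact K.N9_iso B.hω he hw hf ((mul_eq_zero.mp h).resolve_left hc) c
    · exact K.Eu_iso he hh hv2 w c
  · have hb : w * Eu e (v (Sum.inr 0)) (v (Sum.inr 1)) (v (Sum.inr 2)) ≠ 0 := mul_ne_zero hw hh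
    have hc0 : c * N9 B.ω e w (fun i => v (Sum.inl i)) ≠ 0 := by
      intro h0
      rw [h0, zero_add] at h
      exact hb h
    have hN := right_ne_zero_of_mul hc0
    have h1 : K.S e w c = K.S e w (c * N9 B.ω e w (fun i => v (Sum.inl i))) := by
      rw [K.mul3 _ _ _ _ hc hN, K.sym_N9 B.hω he hw, add_zero]
    have h2 : ∀ y, K.S e w y
        = K.S e (w * Eu e (v (Sum.inr 0)) (v (Sum.inr 1)) (v (Sum.inr 2))) y := by
      intro y
      rw [K.mul2 _ _ _ _ hw hh, K.sym_Eu he, add_zero]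
    rw [h1, h2, eq_neg_of_add_eq_zero_left h, K.neg3, K.diag23]

/-- PAIR: block values `a`, `b` (either may be `0`), `s = a + x₁ b`. -/
theorem pair (K : Stein3 F A) {u x₁ y₁ x₂ y₂ a b : F} (hx₁ : x₁ ≠ 0) (hy₁ : y₁ ≠ 0)
    (hx₂ : x₂ ≠ 0) (hy₂ : y₂ ≠ 0) (ha : a ≠ 0 → K.S u x₁ a = K.S u x₁ y₁)
    (hb : b ≠ 0 → K.S u x₂ b = K.S u x₂ y₂) (hab : a ≠ 0 ∨ b ≠ 0) :
    (a + x₁ * b ≠ 0 ∧ ∃ p q : F, p ≠ 0 ∧ q ≠ 0 ∧
        K.S u x₁ y₁ + K.S u x₂ y₂ = K.S u (x₁ * x₂) (a + x₁ * b) + K.S u p q) ∨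
      (∃ p q : F, p ≠ 0 ∧ q ≠ 0 ∧ K.S u x₁ y₁ + K.S u x₂ y₂ = K.S u p q) := by
  rcases eq_or_ne b 0 with hb0 | hb0
  · have ha0 : a ≠ 0 := hab.resolve_right (fun h => h hb0)
    left
    rw [hb0, mul_zero, add_zero]
    refine ⟨ha0, x₂, y₂ / a, hx₂, div_ne_zero hy₂ ha0, ?_⟩
    rw [K.mul2 _ _ _ _ hx₁ hx₂, K.div3 _ _ hy₂ ha0, ha ha0]
    abel
  rcases eq_or_ne a 0 with ha0 | ha0
  · left
    rw [ha0, zero_add]
    refine ⟨mul_ne_zero hx₁ hb0, x₁, y₁ * x₂ / (x₁ * b), hx₁,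
      div_ne_zero (mul_ne_zero hy₁ hx₂) (mul_ne_zero hx₁ hb0), ?_⟩
    rw [K.mul2 _ _ _ _ hx₁ hx₂, K.div3 _ _ (mul_ne_zero hy₁ hx₂) (mul_ne_zero hx₁ hb0),
      K.mul3 _ _ _ _ hx₁ hb0, K.mul3 _ _ _ _ hx₁ hb0, K.mul3 _ _ _ _ hy₁ hx₂, hb hb0, K.diag23,
      K.swap23 u x₁ x₂]
    abel
  rcases eq_or_ne (a + x₁ * b) 0 with hs | hs
  · right
    refine ⟨x₁ * x₂, b, mul_ne_zero hx₁ hx₂, hb0, ?_⟩
    rw [← ha ha0, ← hb hb0, eq_neg_of_add_eq_zero_left hs, K.neg3, K.mul3 _ _ _ _ hx₁ hb0,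
      K.diag23, zero_add, K.mul2 _ _ _ _ hx₁ hx₂]
  · left
    refine ⟨hs, (a + x₁ * b) / b, x₂ * a / (a + x₁ * b), div_ne_zero hs hb0,
      div_ne_zero (mul_ne_zero hx₂ ha0) hs, ?_⟩
    have hxb : x₁ * b ≠ 0 := mul_ne_zero hx₁ hb0
    have h2 := K.R23 u ha0 hxb hs rfl
    rw [K.div2 _ _ ha0 hxb, K.mul3 _ _ _ _ hx₁ hb0, K.mul2 _ _ _ _ hx₁ hb0] at h2
    generalize a + x₁ * b = s at *
    rw [K.mul2 _ _ _ _ hx₁ hx₂, K.div2 _ _ hs hb0, K.div3 _ _ (mul_ne_zero hx₂ ha0) hs,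
      K.div3 _ _ (mul_ne_zero hx₂ ha0) hs, K.mul3 _ _ _ _ hx₂ ha0, K.mul3 _ _ _ _ hx₂ ha0,
      K.diag23, K.swap23 u x₂ s, K.swap23 u a s, K.swap23 u x₂ b, K.swap23 u a b, hb hb0]
    rw [K.swap23 u x₁ a, ha ha0] at h2
    have h3 : K.S u x₁ y₁ = K.S u a b - K.S u a s + K.S u x₁ s + K.S u b s := by
      have h4 : K.S u x₁ y₁ = K.S u a b - (-K.S u x₁ y₁ + K.S u a b) := by abel
      rw [h4, h2]
      abel
    rw [h3]
    abel

/-- the two blocks of a group are anisotropic, or the group is one symbol -/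
theorem group_blocks (B : Base F) (K : Stein3 F A) {u x y z t : F} (hu : u ≠ 0) (hx : x ≠ 0)
    (hy : y ≠ 0) (hz : z ≠ 0) (ht : t ≠ 0) (f g : Fin 9 → F) (hfg : f ≠ 0 ∨ g ≠ 0) :
    (y * N9 B.ω u x f + x * t * N9 B.ω u z g ≠ 0 ∧ ∃ p q : F, p ≠ 0 ∧ q ≠ 0 ∧
        K.S u x y + K.S u z t
          = K.S u (x * z) (y * N9 B.ω u x f + x * t * N9 B.ω u z g) + K.S u p q) ∨
      (∃ p q : F, p ≠ 0 ∧ q ≠ 0 ∧ K.S u x y + K.S u z t = K.S u p q) := by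
  by_cases hf : f ≠ 0 ∧ N9 B.ω u x f = 0
  · right
    exact ⟨z, t, hz, ht, by rw [K.N9_iso B.hω hu hx hf.1 hf.2, zero_add]⟩
  by_cases hg : g ≠ 0 ∧ N9 B.ω u z g = 0
  · right
    exact ⟨x, y, hx, hy, by rw [K.N9_iso B.hω hu hz hg.1 hg.2, add_zero]⟩
  rw [not_and] at hf hg
  have h1 := pair K (u := u) (x₁ := x) (y₁ := y) (x₂ := z) (y₂ := t) (a := y * N9 B.ω u x f)
    (b := t * N9 B.ω u z g) hx hy hz ht ?_ ?_ ?_
  · rw [← mul_assoc] at h1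
    exact h1
  · intro h0
    have hN := right_ne_zero_of_mul h0
    rw [K.mul3 _ _ _ _ hy hN, K.sym_N9 B.hω hu hx, add_zero]
  · intro h0
    have hN := right_ne_zero_of_mul h0
    rw [K.mul3 _ _ _ _ ht hN, K.sym_N9 B.hω hu hz, add_zero]
  · rcases hfg with h0 | h0
    · exact Or.inl (mul_ne_zero hy (hf h0))
    · exact Or.inr (mul_ne_zero ht (hg h0))

theorem node_group (B : Base F) (K : Stein3 F A) {u x y z t T T' : F} (hu : u ≠ 0) (hx : x ≠ 0)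
    (hy : y ≠ 0) (hz : z ≠ 0) (ht : t ≠ 0) (v : (Fin 9 ⊕ Fin 9) ⊕ Fin 3 → F)
    (hT : T' = AG B.ω u x y z t v + u * T) (h : T ≠ 0 ∨ T' ≠ 0) :
    ∃ p q p' q' r r' : F, p ≠ 0 ∧ q ≠ 0 ∧ p' ≠ 0 ∧ q' ≠ 0 ∧ r ≠ 0 ∧ r' ≠ 0 ∧
      K.S u x y + K.S u z t = K.S T p q + K.S T' p' q' + K.S u r r' := by
  rw [AG] at hT
  have hxz : x * z ≠ 0 := mul_ne_zero hx hz
  have hb : ∀ b : F, (b = x * z * Eu u (v (Sum.inr 0)) (v (Sum.inr 1)) (v (Sum.inr 2))) →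
      b ≠ 0 → ∀ y, K.S u b y = K.S u (x * z) y := by
    intro b hb h0 y
    subst hb
    have hN := right_ne_zero_of_mul h0
    rw [K.mul2 _ _ _ _ hxz hN, K.sym_Eu hu, add_zero]
  by_cases hfg : (fun i => v (Sum.inl (Sum.inl i))) ≠ (0 : Fin 9 → F) ∨
      (fun i => v (Sum.inl (Sum.inr i))) ≠ (0 : Fin 9 → F)
  · rcases group_blocks B K hu hx hy hz ht _ _ hfg with ⟨hs, p, q, hp, hq, h1⟩ | ⟨p, q, hp, hq, h1⟩
    · obtain ⟨p1, q1, p2, q2, hp1, hq1, hp2, hq2, h2⟩ :=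
        node_core K hu hxz hs (fun _ => rfl) (hb _ rfl) hT h
      exact ⟨p1, q1, p2, q2, p, q, hp1, hq1, hp2, hq2, hp, hq, by rw [h1, h2]⟩
    · refine ⟨1, 1, 1, 1, p, q, one_ne_zero, one_ne_zero, one_ne_zero, one_ne_zero, hp, hq, ?_⟩
      rw [h1, K.one2, K.one2, zero_add, zero_add]
  · rw [not_or, not_ne_iff, not_ne_iff] at hfg
    rw [hfg.1, hfg.2, N9_zero, N9_zero, mul_zero, mul_zero, zero_add] at hT
    obtain ⟨p1, q1, p2, q2, hp1, hq1, hp2, hq2, h2⟩ :=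
      node_core K hu hxz ht (c' := 0) (fun h => absurd rfl h) (hb _ rfl)
        (by rw [hT]) h
    refine ⟨p1, q1, p2, q2, x, y / t, hp1, hq1, hp2, hq2, hx, div_ne_zero hy ht, ?_⟩
    rw [← h2, K.mul2 _ _ _ _ hx hz, K.div3 _ _ hy ht]
    abel

theorem node_group_zero (B : Base F) (K : Stein3 F A) {u x y z t : F} (hu : u ≠ 0) (hx : x ≠ 0)
    (hy : y ≠ 0) (hz : z ≠ 0) (ht : t ≠ 0) (v : (Fin 9 ⊕ Fin 9) ⊕ Fin 3 → F) (hv : v ≠ 0)
    (h : AG B.ω u x y z t v = 0) :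
    ∃ r r' : F, r ≠ 0 ∧ r' ≠ 0 ∧ K.S u x y + K.S u z t = K.S u r r' := by
  rw [AG] at h
  have hxz : x * z ≠ 0 := mul_ne_zero hx hz
  by_cases hfg : (fun i => v (Sum.inl (Sum.inl i))) ≠ (0 : Fin 9 → F) ∨
      (fun i => v (Sum.inl (Sum.inr i))) ≠ (0 : Fin 9 → F)
  · rcases group_blocks B K hu hx hy hz ht _ _ hfg with ⟨hs, p, q, hp, hq, h1⟩ | h1
    · refine ⟨p, q, hp, hq, ?_⟩
      have hb : x * z * Eu u (v (Sum.inr 0)) (v (Sum.inr 1)) (v (Sum.inr 2)) ≠ 0 := by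
        intro h0
        rw [h0, add_zero] at h
        exact hs h
      have hN := right_ne_zero_of_mul hb
      have h2 : ∀ y, K.S u (x * z) y
          = K.S u (x * z * Eu u (v (Sum.inr 0)) (v (Sum.inr 1)) (v (Sum.inr 2))) y := by
        intro y
        rw [K.mul2 _ _ _ _ hxz hN, K.sym_Eu hu, add_zero]
      rw [h1, h2, eq_neg_of_add_eq_zero_left h, K.neg3, K.diag23, zero_add]
    · exact h1
  · rw [not_or, not_ne_iff, not_ne_iff] at hfg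
    rw [hfg.1, hfg.2, N9_zero, N9_zero, mul_zero, mul_zero, zero_add, zero_add] at h
    have hE := (mul_eq_zero.mp h).resolve_left hxz
    have hh : ¬ (v (Sum.inr 0) = 0 ∧ v (Sum.inr 1) = 0 ∧ v (Sum.inr 2) = 0) := by
      intro hh
      apply hv
      funext i
      rcases i with (i | i) | i
      · exact congrFun hfg.1 i
      · exact congrFun hfg.2 i
      · fin_cases i
        · exact hh.1
        · exact hh.2.1
        · exact hh.2.2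
    refine ⟨x, y, hx, hy, ?_⟩
    rw [K.Eu_iso hu hE hh z t, add_zero]

end Pool.K3
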