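import Mathlib

/-!
# K_3 mod 3: definitions shared by the files of `Pool.Agent.K3`

`Stein3 F A`: a function `S : F → F → F → A` (junk value `0` if an entry is `0`), trilinear on
nonzero entries, with the Steinberg relation in adjacent entries, `A` killed by `3`.
-/

set_option autoImplicit false

namespace Pool.K3

/-- `φ` is the evaluation of a homogeneous polynomial of degree `d`. -/
def IsForm {F : Type*} [CommSemiring F] {ι : Type*} (d : ℕ) (φ : (ι → F) → F) : Prop :=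
  ∃ P : MvPolynomial ι F, P.IsHomogeneous d ∧ ∀ x, MvPolynomial.eval x P = φ x

/-- Systems of `r` forms of degree `d` in more than `c * r` variables have a nontrivial zero. -/
def TL (F : Type*) [Field F] (d c r : ℕ) : Prop :=
  ∀ (ι : Type) [Fintype ι] (φ : Fin r → (ι → F) → F), (∀ i, IsForm d (φ i)) →
    c * r < Fintype.card ι → ∃ x : ι → F, x ≠ 0 ∧ ∀ i, φ i x = 0

/-- A symbol map in three entries with values in a group killed by `3`. -/
structure Stein3 (F A : Type*) [Field F] [AddCommGroup A] where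
  S : F → F → F → A
  z1 : ∀ b c, S 0 b c = 0
  z2 : ∀ a c, S a 0 c = 0
  z3 : ∀ a b, S a b 0 = 0
  mul1 : ∀ a a' b c, a ≠ 0 → a' ≠ 0 → S (a * a') b c = S a b c + S a' b c
  mul2 : ∀ a b b' c, b ≠ 0 → b' ≠ 0 → S a (b * b') c = S a b c + S a b' c
  mul3 : ∀ a b c c', c ≠ 0 → c' ≠ 0 → S a b (c * c') = S a b c + S a b c'
  st12 : ∀ a b c, a ≠ 0 → b ≠ 0 → a + b = 1 → S a b c = 0
  st23 : ∀ a b c, b ≠ 0 → c ≠ 0 → b + c = 1 → S a b c = 0
  tor : ∀ z : A, (3 : ℕ) • z = 0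

/-- `a` is a sum of `k` symbols with nonzero entries (hence of `k` or fewer: `{1,1,1} = 0`). -/
def Len {F A : Type*} [Field F] [AddCommGroup A] (K : Stein3 F A) (k : ℕ) (a : A) : Prop :=
  ∃ u x y : Fin k → F, (∀ i, u i ≠ 0 ∧ x i ≠ 0 ∧ y i ≠ 0) ∧ a = ∑ i, K.S (u i) (x i) (y i)

/-- norm form of `F(u^(1/3))`, `v = (v0, v1, v2)` -/
def Eu {F : Type*} [Field F] (u v0 v1 v2 : F) : F :=
  v0 ^ 3 + u * v1 ^ 3 + u ^ 2 * v2 ^ 3 - 3 * u * v0 * v1 * v2

/-- coordinate `0` of the product `a * σ(b) * σ²(c)` in `F[θ]/(θ³ - u)`, `σ θ = ω θ`. -/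
def tr9 {F : Type*} [Field F] (ω u a0 a1 a2 b0 b1 b2 c0 c1 c2 : F) : F :=
  a0 * (b0 * c0 + u * (ω * b1 * (ω * c2) + ω ^ 2 * b2 * (ω ^ 2 * c1)))
    + u * a1 * (b0 * (ω * c2) + ω * b1 * (ω ^ 2 * c1) + ω ^ 2 * b2 * c0)
    + u * a2 * (b0 * (ω ^ 2 * c1) + ω * b1 * c0 + u * (ω ^ 2 * b2 * (ω * c2)))

/-- reduced norm form of the symbol algebra `(u, x)` of degree 3. -/
def N9 {F : Type*} [Field F] (ω u x : F) (f : Fin 9 → F) : F :=
  Eu u (f 0) (f 1) (f 2) + x * Eu u (f 3) (f 4) (f 5) + x ^ 2 * Eu u (f 6) (f 7) (f 8)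
    - x * (3 * tr9 ω u (f 0) (f 1) (f 2) (f 3) (f 4) (f 5) (f 6) (f 7) (f 8))

/-- hypotheses on the field -/
structure Base (F : Type*) [Field F] where
  ω : F
  hω : ω ^ 2 + ω + 1 = 0
  h3 : (3 : F) ≠ 0

end Pool.K3
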