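import Pool.Agent.K3.Defs

/-! # Closure properties of `IsForm` -/

set_option autoImplicit false

namespace Pool.K3

namespace IsForm

open MvPolynomial

section semiring

variable {F : Type*} [CommSemiring F] {ι κ : Type*} {d e : ℕ} {φ ψ : (ι → F) → F}

theorem congr (h : IsForm d φ) (hφ : ∀ x, φ x = ψ x) : IsForm d ψ := by
  obtain ⟨P, hP, hx⟩ := h
  exact ⟨P, hP, fun x => (hx x).trans (hφ x)⟩

theorem zero (d : ℕ) : IsForm d (fun _ : ι → F => (0 : F)) :=
  ⟨0, MvPolynomial.isHomogeneous_zero _ _ _, fun _ => map_zero _⟩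

theorem add (h : IsForm d φ) (h' : IsForm d ψ) : IsForm d (fun x => φ x + ψ x) := by
  obtain ⟨P, hP, hx⟩ := h
  obtain ⟨Q, hQ, hy⟩ := h'
  exact ⟨P + Q, hP.add hQ, fun x => by rw [map_add, hx, hy]⟩

theorem mul (h : IsForm d φ) (h' : IsForm e ψ) : IsForm (d + e) (fun x => φ x * ψ x) := by
  obtain ⟨P, hP, hx⟩ := h
  obtain ⟨Q, hQ, hy⟩ := h'
  exact ⟨P * Q, hP.mul hQ, fun x => by rw [map_mul, hx, hy]⟩

theorem const_mul (c : F) (h : IsForm d φ) : IsForm d (fun x => c * φ x) := by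
  obtain ⟨P, hP, hx⟩ := h
  refine ⟨C c * P, ?_, fun x => by rw [map_mul, hx, eval_C]⟩
  simpa using (isHomogeneous_C ι c).mul hP

theorem mul_const (c : F) (h : IsForm d φ) : IsForm d (fun x => φ x * c) :=
  (h.const_mul c).congr fun _ => mul_comm _ _

theorem pow (h : IsForm d φ) (n : ℕ) : IsForm (d * n) (fun x => φ x ^ n) := by
  obtain ⟨P, hP, hx⟩ := h
  exact ⟨P ^ n, hP.pow n, fun x => by rw [map_pow, hx]⟩

theorem coord (i : ι) : IsForm 1 (fun x : ι → F => x i) :=
  ⟨X i, isHomogeneous_X _ _, fun _ => eval_X _⟩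

theorem coord_pow (i : ι) (n : ℕ) : IsForm n (fun x : ι → F => x i ^ n) := by
  have := (coord (F := F) i).pow n
  rwa [one_mul] at this

/-- a form of degree `d` in the variables `x (f k)` is a form of degree `d` in `x` -/
theorem comp (h : IsForm d φ) (f : ι → κ) : IsForm d (fun x : κ → F => φ (fun i => x (f i))) := by
  obtain ⟨P, hP, hx⟩ := h
  refine ⟨rename f P, hP.rename_isHomogeneous, fun x => ?_⟩
  rw [eval_rename, hx]
  rfl

theorem sum {α : Type*} (s : Finset α) (Φ : α → (ι → F) → F) (h : ∀ a ∈ s, IsForm d (Φ a)) :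
    IsForm d (fun x => ∑ a ∈ s, Φ a x) := by
  classical
  induction s using Finset.induction_on with
  | empty => simpa using zero d
  | insert a s ha ih =>
    refine ((h a (Finset.mem_insert_self a s)).add
      (ih fun b hb => h b (Finset.mem_insert_of_mem hb))).congr fun x => ?_
    rw [Finset.sum_insert ha]

end semiring

section ring

variable {F : Type*} [CommRing F] {ι κ : Type*} {d e : ℕ} {φ ψ : (ι → F) → F}

theorem neg (h : IsForm d φ) : IsForm d (fun x => - φ x) :=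
  (h.const_mul (-1)).congr fun x => by rw [neg_one_mul]

theorem sub (h : IsForm d φ) (h' : IsForm d ψ) : IsForm d (fun x => φ x - ψ x) :=
  (h.add h'.neg).congr fun x => by rw [sub_eq_add_neg]

end ring

end IsForm

section

variable {F : Type*} [Field F]

/-- `Eu u` in any three forms of degree one -/
theorem isForm_Eu_comp {ι : Type*} (u : F) {f g h : (ι → F) → F} (hf : IsForm 1 f)
    (hg : IsForm 1 g) (hh : IsForm 1 h) : IsForm 3 (fun v => Eu u (f v) (g v) (h v)) := by
  have h1 : IsForm 3 fun v => f v ^ 3 := by simpa using hf.pow 3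
  have h2 : IsForm 3 fun v => g v ^ 3 := by simpa using hg.pow 3
  have h3 : IsForm 3 fun v => h v ^ 3 := by simpa using hh.pow 3
  have h4 : IsForm 3 fun v => f v * g v * h v := (hf.mul hg).mul hh
  refine (((h1.add (h2.const_mul u)).add (h3.const_mul (u ^ 2))).sub
    (h4.const_mul (3 * u))).congr fun v => ?_
  rw [Eu]
  ring

theorem isForm_Eu (u : F) : IsForm 3 (fun v : Fin 3 → F => Eu u (v 0) (v 1) (v 2)) :=
  isForm_Eu_comp u (IsForm.coord 0) (IsForm.coord 1) (IsForm.coord 2)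

theorem isForm_N9 (ω u x : F) : IsForm 3 (N9 ω u x) := by
  have hc : ∀ i : Fin 9, IsForm 1 (fun v : Fin 9 → F => v i) := fun i => IsForm.coord i
  have h3 : ∀ (c : F) (i j k : Fin 9), IsForm 3 (fun v : Fin 9 → F => c * (v i * v j * v k)) :=
    fun c i j k => (((hc i).mul (hc j)).mul (hc k)).const_mul c
  have h1 := isForm_Eu_comp u (hc 0) (hc 1) (hc 2)
  have h2 := isForm_Eu_comp u (hc 3) (hc 4) (hc 5)
  have h4 := isForm_Eu_comp u (hc 6) (hc 7) (hc 8)
  have ht : IsForm 3 (fun f : Fin 9 → F =>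
      tr9 ω u (f 0) (f 1) (f 2) (f 3) (f 4) (f 5) (f 6) (f 7) (f 8)) := by
    refine (((((((((h3 1 0 3 6).add (h3 (u * ω ^ 2) 0 4 8)).add (h3 (u * ω ^ 4) 0 5 7)).add
      (h3 (u * ω) 1 3 8)).add (h3 (u * ω ^ 3) 1 4 7)).add (h3 (u * ω ^ 2) 1 5 6)).add
      (h3 (u * ω ^ 2) 2 3 7)).add (h3 (u * ω) 2 4 6)).add
      (h3 (u * u * ω ^ 3) 2 5 8)).congr fun f => ?_
    rw [tr9]
    ring
  refine (((h1.add (h2.const_mul x)).add (h4.const_mul (x ^ 2))).sub
    ((ht.const_mul 3).const_mul x)).congr fun f => ?_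
  rw [N9]

end

end Pool.K3
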