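import Pool.Agent.K3.Defs

/-!
# K_3 mod 3 in the format of the frozen statement S01739

`MK F` is the quotient of the third tensor power of the group of units of `F` by the Steinberg
relations and by the multiples of `3`, written exactly as in the frozen statement with
`n = p = 3`.  It carries a `Stein3` structure (`milnor`), every element is a sum of symbols
(`milnor_len`), and a bound for the number of symbols in all `Stein3` structures gives the
conclusion in the frozen format (`frozen_of_len`).
-/

set_option autoImplicit false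

namespace Pool.K3

universe w

open PiTensorProduct

/-- the relations of `K_3` mod `3`, in the frozen format -/
def Rel3 (F : Type w) [Field F] : Submodule ℤ (PiTensorProduct ℤ (fun _ : Fin 3 => Additive Fˣ)) :=
  Submodule.span ℤ
    ({t : PiTensorProduct ℤ (fun _ : Fin 3 => Additive Fˣ) |
        ∃ b : Fin 3 → Fˣ,
          (∃ i j : Fin 3, i.val + 1 = j.val ∧ ((b i : F) + (b j : F) = 1)) ∧
          t = PiTensorProduct.tprod ℤ (fun j => Additive.ofMul (b j))} ∪
     {t : PiTensorProduct ℤ (fun _ : Fin 3 => Additive Fˣ) |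
        ∃ y, t = ((3 : ℕ) : ℤ) • y})

/-- `K_3` mod `3` -/
abbrev MK (F : Type w) [Field F] : Type w :=
  PiTensorProduct ℤ (fun _ : Fin 3 => Additive Fˣ) ⧸ Rel3 F

/-- the universal multilinear map -/
noncomputable def MKm (F : Type w) [Field F] :
    MultilinearMap ℤ (fun _ : Fin 3 => Additive Fˣ) (MK F) :=
  (Rel3 F).mkQ.compMultilinearMap (PiTensorProduct.tprod ℤ)

theorem MKm_apply {F : Type w} [Field F] (b : Fin 3 → Additive Fˣ) :
    MKm F b = Submodule.Quotient.mk (PiTensorProduct.tprod ℤ b) := rfl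

theorem MKm_add0 {F : Type w} [Field F] (x x' y z : Additive Fˣ) :
    MKm F ![x + x', y, z] = MKm F ![x, y, z] + MKm F ![x', y, z] := by
  have h := (MKm F).map_update_add ![x, y, z] 0 x x'
  have e : ∀ t : Additive Fˣ, Function.update ![x, y, z] 0 t = ![t, y, z] := by
    intro t
    ext i
    fin_cases i <;> rfl
  rw [e, e, e] at h
  exact h

theorem MKm_add1 {F : Type w} [Field F] (x y y' z : Additive Fˣ) :
    MKm F ![x, y + y', z] = MKm F ![x, y, z] + MKm F ![x, y', z] := by
  have h := (MKm F).map_update_add ![x, y, z] 1 y y'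
  have e : ∀ t : Additive Fˣ, Function.update ![x, y, z] 1 t = ![x, t, z] := by
    intro t
    ext i
    fin_cases i <;> rfl
  rw [e, e, e] at h
  exact h

theorem MKm_add2 {F : Type w} [Field F] (x y z z' : Additive Fˣ) :
    MKm F ![x, y, z + z'] = MKm F ![x, y, z] + MKm F ![x, y, z'] := by
  have h := (MKm F).map_update_add ![x, y, z] 2 z z'
  have e : ∀ t : Additive Fˣ, Function.update ![x, y, z] 2 t = ![x, y, t] := by
    intro t
    ext i
    fin_cases i <;> rfl
  rw [e, e, e] at h
  exact h

open Classical in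
/-- the symbol of three elements of `F`, `0` if one of them is `0` -/
noncomputable def sym3 {F : Type w} [Field F] (a b c : F) : MK F :=
  if h : a ≠ 0 ∧ b ≠ 0 ∧ c ≠ 0 then
    MKm F ![Additive.ofMul (Units.mk0 a h.1), Additive.ofMul (Units.mk0 b h.2.1),
      Additive.ofMul (Units.mk0 c h.2.2)]
  else 0

theorem sym3_eq {F : Type w} [Field F] {a b c : F} (ha : a ≠ 0) (hb : b ≠ 0) (hc : c ≠ 0) :
    sym3 a b c = MKm F ![Additive.ofMul (Units.mk0 a ha), Additive.ofMul (Units.mk0 b hb),
      Additive.ofMul (Units.mk0 c hc)] := by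
  unfold sym3
  rw [dif_pos ⟨ha, hb, hc⟩]

theorem ofMul_mk0_mul {F : Type w} [Field F] {a a' : F} (ha : a ≠ 0) (ha' : a' ≠ 0) :
    Additive.ofMul (Units.mk0 (a * a') (mul_ne_zero ha ha')) =
      Additive.ofMul (Units.mk0 a ha) + Additive.ofMul (Units.mk0 a' ha') := by
  rw [← ofMul_mul]
  congr 1
  ext
  rfl

theorem MKm_stein {F : Type w} [Field F] (b : Fin 3 → Fˣ) (i j : Fin 3) (hij : i.val + 1 = j.val)
    (h : (b i : F) + (b j : F) = 1) : MKm F (fun l => Additive.ofMul (b l)) = 0 := by
  rw [MKm_apply, Submodule.Quotient.mk_eq_zero]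
  exact Submodule.subset_span (Or.inl ⟨b, ⟨i, j, hij, h⟩, rfl⟩)

/-- `K_3` mod `3` with its symbols -/
noncomputable def milnor (F : Type w) [Field F] : Stein3 F (MK F) where
  S := sym3
  z1 := fun b c => by unfold sym3; rw [dif_neg (fun h => h.1 rfl)]
  z2 := fun a c => by unfold sym3; rw [dif_neg (fun h => h.2.1 rfl)]
  z3 := fun a b => by unfold sym3; rw [dif_neg (fun h => h.2.2 rfl)]
  mul1 := by
    intro a a' b c ha ha'
    by_cases hb : b = 0
    · subst hb
      unfold sym3
      rw [dif_neg (fun h => h.2.1 rfl), dif_neg (fun h => h.2.1 rfl), dif_neg (fun h => h.2.1 rfl),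
        add_zero]
    by_cases hc : c = 0
    · subst hc
      unfold sym3
      rw [dif_neg (fun h => h.2.2 rfl), dif_neg (fun h => h.2.2 rfl), dif_neg (fun h => h.2.2 rfl),
        add_zero]
    rw [sym3_eq (mul_ne_zero ha ha') hb hc, sym3_eq ha hb hc, sym3_eq ha' hb hc,
      ofMul_mk0_mul ha ha', MKm_add0]
  mul2 := by
    intro a b b' c hb hb'
    by_cases ha : a = 0
    · subst ha
      unfold sym3
      rw [dif_neg (fun h => h.1 rfl), dif_neg (fun h => h.1 rfl), dif_neg (fun h => h.1 rfl),
        add_zero]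
    by_cases hc : c = 0
    · subst hc
      unfold sym3
      rw [dif_neg (fun h => h.2.2 rfl), dif_neg (fun h => h.2.2 rfl), dif_neg (fun h => h.2.2 rfl),
        add_zero]
    rw [sym3_eq ha (mul_ne_zero hb hb') hc, sym3_eq ha hb hc, sym3_eq ha hb' hc,
      ofMul_mk0_mul hb hb', MKm_add1]
  mul3 := by
    intro a b c c' hc hc'
    by_cases ha : a = 0
    · subst ha
      unfold sym3
      rw [dif_neg (fun h => h.1 rfl), dif_neg (fun h => h.1 rfl), dif_neg (fun h => h.1 rfl),
        add_zero]
    by_cases hb : b = 0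
    · subst hb
      unfold sym3
      rw [dif_neg (fun h => h.2.1 rfl), dif_neg (fun h => h.2.1 rfl), dif_neg (fun h => h.2.1 rfl),
        add_zero]
    rw [sym3_eq ha hb (mul_ne_zero hc hc'), sym3_eq ha hb hc, sym3_eq ha hb hc',
      ofMul_mk0_mul hc hc', MKm_add2]
  st12 := by
    intro a b c ha hb hab
    by_cases hc : c = 0
    · subst hc
      unfold sym3
      rw [dif_neg (fun h => h.2.2 rfl)]
    rw [sym3_eq ha hb hc]
    have h := MKm_stein ![Units.mk0 a ha, Units.mk0 b hb, Units.mk0 c hc] 0 1 rfl hab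
    rw [← h]
    congr 1
  st23 := by
    intro a b c hb hc hbc
    by_cases ha : a = 0
    · subst ha
      unfold sym3
      rw [dif_neg (fun h => h.1 rfl)]
    rw [sym3_eq ha hb hc]
    have h := MKm_stein ![Units.mk0 a ha, Units.mk0 b hb, Units.mk0 c hc] 1 2 rfl hbc
    rw [← h]
    congr 1
  tor := by
    intro z
    obtain ⟨y, rfl⟩ := Submodule.Quotient.mk_surjective _ z
    have h : (Submodule.Quotient.mk (((3 : ℕ) : ℤ) • y) : MK F) = 0 := by
      rw [Submodule.Quotient.mk_eq_zero]
      exact Submodule.subset_span (Or.inr ⟨y, rfl⟩)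
    rw [Submodule.Quotient.mk_smul, natCast_zsmul] at h
    exact h

theorem len_one {F : Type w} [Field F] (a b c : Fˣ) :
    Len (milnor F) 1
      (MKm F ![Additive.ofMul a, Additive.ofMul b, Additive.ofMul c]) := by
  refine ⟨fun _ => a, fun _ => b, fun _ => c, fun _ => ⟨a.ne_zero, b.ne_zero, c.ne_zero⟩, ?_⟩
  rw [Fin.sum_univ_one]
  change _ = sym3 (a : F) (b : F) (c : F)
  rw [sym3_eq a.ne_zero b.ne_zero c.ne_zero]
  congr 1
  ext i
  fin_cases i <;> simp

theorem len_add {F A : Type*} [Field F] [AddCommGroup A] (K : Stein3 F A) {N M : ℕ} {a b : A}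
    (ha : Len K N a) (hb : Len K M b) : Len K (N + M) (a + b) := by
  obtain ⟨u, x, y, h, rfl⟩ := ha
  obtain ⟨u', x', y', h', rfl⟩ := hb
  refine ⟨Fin.append u u', Fin.append x x', Fin.append y y', ?_, ?_⟩
  · intro i
    refine Fin.addCases (fun i => ?_) (fun i => ?_) i
    · simpa using h i
    · simpa using h' i
  · rw [Fin.sum_univ_add]
    congr 1
    · refine Finset.sum_congr rfl fun i _ => ?_
      rw [Fin.append_left, Fin.append_left, Fin.append_left]
    · refine Finset.sum_congr rfl fun i _ => ?_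
      rw [Fin.append_right, Fin.append_right, Fin.append_right]

/-- every element of `K_3` mod `3` is a finite sum of symbols -/
theorem milnor_len {F : Type w} [Field F]
    (x : PiTensorProduct ℤ (fun _ : Fin 3 => Additive Fˣ)) :
    ∃ N : ℕ, Len (milnor F) N (Submodule.Quotient.mk x : MK F) := by
  induction x using PiTensorProduct.induction_on with
  | smul_tprod r f =>
    refine ⟨1, ?_⟩
    have e : (Submodule.Quotient.mk (r • PiTensorProduct.tprod ℤ f) : MK F)
        = MKm F ![Additive.ofMul (Additive.toMul (r • f 0)), Additive.ofMul (Additive.toMul (f 1)),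
          Additive.ofMul (Additive.toMul (f 2))] := by
      rw [Submodule.Quotient.mk_smul, ← MKm_apply]
      have h := (MKm F).map_update_smul f 0 r (f 0)
      rw [Function.update_eq_self] at h
      rw [← h]
      congr 1
      ext i
      fin_cases i <;> simp
    rw [e]
    exact len_one _ _ _
  | add x y hx hy =>
    obtain ⟨N, hN⟩ := hx
    obtain ⟨M, hM⟩ := hy
    refine ⟨N + M, ?_⟩
    rw [Submodule.Quotient.mk_add]
    exact len_add _ hN hM

/-- From a uniform bound in `Stein3` structures to the frozen format, for any field. -/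
theorem frozen_of_len {F : Type w} [Field F] (k : ℕ)
    (h : ∀ (N : ℕ) (a : MK F), Len (milnor F) N a → Len (milnor F) k a) :
    ∀ x : PiTensorProduct ℤ (fun _ : Fin 3 => Additive Fˣ),
      ∃ r : ℕ, r ≤ k ∧ ∃ a : Fin r → Fin 3 → Fˣ,
        x - ∑ i, PiTensorProduct.tprod ℤ (fun j => Additive.ofMul (a i j)) ∈
          Submodule.span ℤ
            ({t : PiTensorProduct ℤ (fun _ : Fin 3 => Additive Fˣ) |
                ∃ b : Fin 3 → Fˣ,
                  (∃ i j : Fin 3, i.val + 1 = j.val ∧ ((b i : F) + (b j : F) = 1)) ∧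
                  t = PiTensorProduct.tprod ℤ (fun j => Additive.ofMul (b j))} ∪
             {t : PiTensorProduct ℤ (fun _ : Fin 3 => Additive Fˣ) |
                ∃ y, t = ((3 : ℕ) : ℤ) • y}) := by
  intro x
  obtain ⟨N, hN⟩ := milnor_len x
  obtain ⟨u, v, y, hne, hx⟩ := h N _ hN
  refine ⟨k, le_refl k, fun i => ![Units.mk0 (u i) (hne i).1, Units.mk0 (v i) (hne i).2.1,
    Units.mk0 (y i) (hne i).2.2], ?_⟩
  change _ ∈ Rel3 F
  rw [← Submodule.Quotient.mk_eq_zero, Submodule.Quotient.mk_sub, hx, sub_eq_zero]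
  have hs : (Submodule.Quotient.mk (∑ i : Fin k, PiTensorProduct.tprod ℤ (fun j =>
      Additive.ofMul ((![Units.mk0 (u i) (hne i).1, Units.mk0 (v i) (hne i).2.1,
        Units.mk0 (y i) (hne i).2.2] : Fin 3 → Fˣ) j))) : MK F)
      = ∑ i : Fin k, MKm F (fun j =>
      Additive.ofMul ((![Units.mk0 (u i) (hne i).1, Units.mk0 (v i) (hne i).2.1,
        Units.mk0 (y i) (hne i).2.2] : Fin 3 → Fˣ) j)) := by
    change (Rel3 F).mkQ _ = _
    rw [map_sum]
    rfl
  rw [hs]
  refine Finset.sum_congr rfl fun i _ => ?_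
  change sym3 (u i) (v i) (y i) = _
  rw [sym3_eq (hne i).1 (hne i).2.1 (hne i).2.2]
  congr 1

/-- a primitive cube root of unity comes from an algebraically closed subfield -/
noncomputable def baseOfAlgClosed (k F : Type*) [Field k] [Field F] [IsAlgClosed k] [Algebra k F]
    (h3 : (3 : F) ≠ 0) : Base F := by
  have h : ∃ z : k, z ^ 2 + z + 1 = 0 := by
    have hd : (Polynomial.X ^ 2 + Polynomial.X + 1 : Polynomial k).degree ≠ 0 := by
      have : (Polynomial.X ^ 2 + Polynomial.X + 1 : Polynomial k).degree = 2 := by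
        compute_degree!
      rw [this]
      decide
    obtain ⟨z, hz⟩ := IsAlgClosed.exists_root _ hd
    refine ⟨z, ?_⟩
    simpa [Polynomial.IsRoot] using hz
  exact
    { ω := algebraMap k F h.choose
      hω := by
        rw [← map_pow, ← map_add, ← map_one (algebraMap k F), ← map_add, h.choose_spec, map_zero]
      h3 := h3 }

end Pool.K3
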