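import Pool.Agent.K3.Block
import Pool.Agent.K3.Form

/-! # The moves: groups `3 → 2`, A1, STAR21, M and the bound 4 -/

set_option autoImplicit false

namespace Pool.K3

variable {F A : Type*} [Field F] [AddCommGroup A]

/-- a single symbol -/
def Sing (K : Stein3 F A) (a : A) : Prop :=
  ∃ u x y : F, u ≠ 0 ∧ x ≠ 0 ∧ y ≠ 0 ∧ a = K.S u x y

/-- two symbols with a common slot -/
def G2 (K : Stein3 F A) (a : A) : Prop :=
  ∃ u x y z t : F, u ≠ 0 ∧ x ≠ 0 ∧ y ≠ 0 ∧ z ≠ 0 ∧ t ≠ 0 ∧ a = K.S u x y + K.S u z t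

theorem Sing.g2 {K : Stein3 F A} {a : A} (h : Sing K a) : G2 K a := by
  obtain ⟨u, x, y, hu, hx, hy, rfl⟩ := h
  exact ⟨u, x, y, 1, 1, hu, hx, hy, one_ne_zero, one_ne_zero, by rw [K.one2, add_zero]⟩

theorem sing_zero (K : Stein3 F A) : Sing K (0 : A) :=
  ⟨1, 1, 1, one_ne_zero, one_ne_zero, one_ne_zero, (K.one1 _ _).symm⟩

/-- one symbol with slot `T` (possibly `T = 0`) -/
theorem sing_or (K : Stein3 F A) {T p q : F} (hp : p ≠ 0) (hq : q ≠ 0) : Sing K (K.S T p q) := by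
  rcases eq_or_ne T 0 with rfl | hT
  · rw [K.z1]
    exact sing_zero K
  · exact ⟨T, p, q, hT, hp, hq, rfl⟩

/-- two symbols with common slot `T` (possibly `T = 0`) -/
theorem g2_or (K : Stein3 F A) {T p q p' q' : F} (hp : p ≠ 0) (hq : q ≠ 0) (hp' : p' ≠ 0)
    (hq' : q' ≠ 0) : G2 K (K.S T p q + K.S T p' q') := by
  rcases eq_or_ne T 0 with rfl | hT
  · rw [K.z1, K.z1, add_zero]
    exact (sing_zero K).g2
  · exact ⟨T, p, q, p', q', hT, hp, hq, hp', hq', rfl⟩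

abbrev IS := Fin 9 ⊕ Fin 3
abbrev IG := (Fin 9 ⊕ Fin 9) ⊕ Fin 3

/-- block lemma, single, `T ≠ 0` -/
theorem sblock (B : Base F) (K : Stein3 F A) {e w c T k : F} (he : e ≠ 0) (hw : w ≠ 0)
    (hc : c ≠ 0) (v : IS → F) (hT : T = AS B.ω e w c v + e * k ^ 3) (h : T ≠ 0) :
    ∃ p q : F, p ≠ 0 ∧ q ≠ 0 ∧ K.S e w c = K.S T p q := by
  obtain ⟨p, q, p', q', hp, hq, hp', hq', h1⟩ := node_single B K he hw hc v hT (Or.inr h)
  exact ⟨p', q', hp', hq', by rw [h1, K.cube1, zero_add]⟩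

/-- block lemma, single, value `0` -/
theorem sblock_zero (B : Base F) (K : Stein3 F A) {e w c k : F} (he : e ≠ 0) (hw : w ≠ 0)
    (hc : c ≠ 0) (v : IS → F) (hT : AS B.ω e w c v + e * k ^ 3 = 0) (h : v ≠ 0 ∨ k ≠ 0) :
    K.S e w c = 0 := by
  rcases eq_or_ne k 0 with rfl | hk
  · rw [zero_pow three_ne_zero, mul_zero, add_zero] at hT
    rcases h with h | h
    · exact node_single_zero B K he hw hc v h hT
    · exact absurd rfl h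
  · obtain ⟨p, q, p', q', hp, hq, hp', hq', h1⟩ :=
      node_single B K he hw hc v hT.symm (Or.inl (pow_ne_zero 3 hk))
    rw [h1, K.cube1, K.z1, zero_add]

/-- block lemma, group, `T ≠ 0` -/
theorem gblock (B : Base F) (K : Stein3 F A) {u x y z t T k : F} (hu : u ≠ 0) (hx : x ≠ 0)
    (hy : y ≠ 0) (hz : z ≠ 0) (ht : t ≠ 0) (v : IG → F)
    (hT : T = AG B.ω u x y z t v + u * k ^ 3) (h : T ≠ 0) :
    ∃ p q r r' : F, p ≠ 0 ∧ q ≠ 0 ∧ r ≠ 0 ∧ r' ≠ 0 ∧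
      K.S u x y + K.S u z t = K.S T p q + K.S u r r' := by
  obtain ⟨p, q, p', q', r, r', hp, hq, hp', hq', hr, hr', h1⟩ :=
    node_group B K hu hx hy hz ht v hT (Or.inr h)
  exact ⟨p', q', r, r', hp', hq', hr, hr', by rw [h1, K.cube1, zero_add]⟩

/-- block lemma, group, value `0` -/
theorem gblock_zero (B : Base F) (K : Stein3 F A) {u x y z t k : F} (hu : u ≠ 0) (hx : x ≠ 0)
    (hy : y ≠ 0) (hz : z ≠ 0) (ht : t ≠ 0) (v : IG → F)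
    (hT : AG B.ω u x y z t v + u * k ^ 3 = 0) (h : v ≠ 0 ∨ k ≠ 0) :
    ∃ r r' : F, r ≠ 0 ∧ r' ≠ 0 ∧ K.S u x y + K.S u z t = K.S u r r' := by
  rcases eq_or_ne k 0 with rfl | hk
  · rw [zero_pow three_ne_zero, mul_zero, add_zero] at hT
    rcases h with h | h
    · exact node_group_zero B K hu hx hy hz ht v h hT
    · exact absurd rfl h
  · obtain ⟨p, q, p', q', r, r', hp, hq, hp', hq', hr, hr', h1⟩ :=
      node_group B K hu hx hy hz ht v hT.symm (Or.inl (pow_ne_zero 3 hk))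
    exact ⟨r, r', hr, hr', by rw [h1, K.cube1, K.z1, zero_add, zero_add]⟩

/-! ### closure properties of forms used here -/

theorem form_add {ι : Type*} {d : ℕ} {φ ψ : (ι → F) → F} (h : IsForm d φ) (h' : IsForm d ψ) :
    IsForm d (fun v => φ v + ψ v) := by
  obtain ⟨P, hP, hP'⟩ := h
  obtain ⟨Q, hQ, hQ'⟩ := h'
  exact ⟨P + Q, hP.add hQ, fun x => by rw [map_add, hP', hQ']⟩

theorem form_cmul {ι : Type*} {d : ℕ} {φ : (ι → F) → F} (c : F) (h : IsForm d φ) :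
    IsForm d (fun v => c * φ v) := by
  obtain ⟨P, hP, hP'⟩ := h
  refine ⟨MvPolynomial.C c * P, ?_, fun x => by rw [map_mul, hP', MvPolynomial.eval_C]⟩
  have := (MvPolynomial.isHomogeneous_C ι c).mul hP
  rwa [zero_add] at this

theorem form_sub {ι : Type*} {d : ℕ} {φ ψ : (ι → F) → F} (h : IsForm d φ) (h' : IsForm d ψ) :
    IsForm d (fun v => φ v - ψ v) := by
  have := form_add h (form_cmul (-1) h')
  refine ⟨this.choose, this.choose_spec.1, fun x => ?_⟩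
  rw [this.choose_spec.2]
  ring

theorem form_comp {ι κ : Type*} {d : ℕ} {φ : (κ → F) → F} (g : κ → ι) (h : IsForm d φ) :
    IsForm d (fun v : ι → F => φ (fun k => v (g k))) := by
  obtain ⟨P, hP, hP'⟩ := h
  refine ⟨MvPolynomial.rename g P, hP.rename_isHomogeneous, fun x => ?_⟩
  rw [MvPolynomial.eval_rename]
  exact hP' _

theorem form_cube {ι : Type*} (i : ι) : IsForm 3 (fun v : ι → F => v i ^ 3) :=
  ⟨MvPolynomial.X i ^ 3, by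
    have := (MvPolynomial.isHomogeneous_X F i).pow 3
    rwa [one_mul] at this, fun x => by rw [map_pow, MvPolynomial.eval_X]⟩

/-! ### three symbols with a common slot are two -/

theorem TL.mono {d c : ℕ} (h : TL F d c 2) : TL F d c 1 := by
  intro ι _ φ hφ hc
  obtain ⟨v, hv, hz⟩ := h (ι ⊕ ι) ![fun v => φ 0 (fun i => v (Sum.inl i)),
      fun v => φ 0 (fun i => v (Sum.inr i))]
    (by
      intro i
      fin_cases i
      · exact form_comp (fun i => Sum.inl i) (hφ 0)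
      · exact form_comp (fun i => Sum.inr i) (hφ 0))
    (by rw [Fintype.card_sum]; omega)
  by_cases h0 : (fun i => v (Sum.inl i) : ι → F) = 0
  · refine ⟨fun i => v (Sum.inr i), ?_, fun i => ?_⟩
    · intro h1
      apply hv
      funext i
      rcases i with i | i
      · exact congrFun h0 i
      · exact congrFun h1 i
    · rw [Subsingleton.elim i 0]
      exact hz 1
  · refine ⟨fun i => v (Sum.inl i), h0, fun i => ?_⟩
    rw [Subsingleton.elim i 0]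
    exact hz 0

theorem N9_one (ω u x : F) : N9 ω u x ![1, 0, 0, 0, 0, 0, 0, 0, 0] = 1 := by
  simp [N9, Eu, tr9]

theorem grp32 (B : Base F) (K : Stein3 F A) (h1 : TL F 3 27 1) {u x₁ y₁ x₂ y₂ x₃ y₃ : F}
    (hu : u ≠ 0) (hx₁ : x₁ ≠ 0) (hy₁ : y₁ ≠ 0) (hx₂ : x₂ ≠ 0) (hy₂ : y₂ ≠ 0) (hx₃ : x₃ ≠ 0)
    (hy₃ : y₃ ≠ 0) :
    ∃ x y z t : F, x ≠ 0 ∧ y ≠ 0 ∧ z ≠ 0 ∧ t ≠ 0 ∧
      K.S u x₁ y₁ + K.S u x₂ y₂ + K.S u x₃ y₃ = K.S u x y + K.S u z t := by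
  obtain ⟨v, hv, hz⟩ := h1 ((Fin 9 ⊕ Fin 9) ⊕ (Fin 9 ⊕ Fin 9)) (fun _ v =>
      (y₁ * N9 B.ω u x₁ (fun i => v (Sum.inl (Sum.inl i)))
        + x₁ * (y₂ * N9 B.ω u x₂ (fun i => v (Sum.inl (Sum.inr i)))
          + x₂ * (y₃ * N9 B.ω u x₃ (fun i => v (Sum.inr (Sum.inl i))))))
        - N9 B.ω u (x₁ * (x₂ * x₃)) (fun i => v (Sum.inr (Sum.inr i))))
    (fun _ => form_sub (form_add (form_cmul _ (form_comp _ (isForm_N9 _ _ _)))
      (form_cmul _ (form_add (form_cmul _ (form_comp _ (isForm_N9 _ _ _)))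
        (form_cmul _ (form_cmul _ (form_comp _ (isForm_N9 _ _ _)))))))
        (form_comp _ (isForm_N9 _ _ _)))
    (by simp)
  have hz := hz 0
  set f₁ : Fin 9 → F := fun i => v (Sum.inl (Sum.inl i)) with hf₁
  set f₂ : Fin 9 → F := fun i => v (Sum.inl (Sum.inr i)) with hf₂
  set f₃ : Fin 9 → F := fun i => v (Sum.inr (Sum.inl i)) with hf₃
  set f₄ : Fin 9 → F := fun i => v (Sum.inr (Sum.inr i)) with hf₄
  have hX : x₁ * (x₂ * x₃) ≠ 0 := mul_ne_zero hx₁ (mul_ne_zero hx₂ hx₃)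
  -- degenerate cases: one of the symbols `{u, x_i}` or `{u, X}` vanishes
  by_cases d₁ : ∀ y, K.S u x₁ y = 0
  · exact ⟨x₂, y₂, x₃, y₃, hx₂, hy₂, hx₃, hy₃, by rw [d₁, zero_add]⟩
  by_cases d₂ : ∀ y, K.S u x₂ y = 0
  · exact ⟨x₁, y₁, x₃, y₃, hx₁, hy₁, hx₃, hy₃, by rw [d₂, add_zero]⟩
  by_cases d₃ : ∀ y, K.S u x₃ y = 0
  · exact ⟨x₁, y₁, x₂, y₂, hx₁, hy₁, hx₂, hy₂, by rw [d₃, add_zero]⟩
  by_cases d₄ : ∀ y, K.S u (x₁ * (x₂ * x₃)) y = 0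
  · have h := d₄ y₃
    rw [K.mul2 _ _ _ _ hx₁ (mul_ne_zero hx₂ hx₃), K.mul2 _ _ _ _ hx₂ hx₃] at h
    refine ⟨x₁, y₁ / y₃, x₂, y₂ / y₃, hx₁, div_ne_zero hy₁ hy₃, hx₂, div_ne_zero hy₂ hy₃, ?_⟩
    rw [K.div3 _ _ hy₁ hy₃, K.div3 _ _ hy₂ hy₃]
    have h' : K.S u x₃ y₃ = - K.S u x₁ y₃ - K.S u x₂ y₃ := by
      rw [← sub_eq_zero, ← h]
      abel
    rw [h']
    abel
  have n₁ : f₁ ≠ 0 → N9 B.ω u x₁ f₁ ≠ 0 := fun h h' => d₁ (K.N9_iso B.hω hu hx₁ h h')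
  have n₂ : f₂ ≠ 0 → N9 B.ω u x₂ f₂ ≠ 0 := fun h h' => d₂ (K.N9_iso B.hω hu hx₂ h h')
  have n₃ : f₃ ≠ 0 → N9 B.ω u x₃ f₃ ≠ 0 := fun h h' => d₃ (K.N9_iso B.hω hu hx₃ h h')
  have n₄ : f₄ ≠ 0 → N9 B.ω u (x₁ * (x₂ * x₃)) f₄ ≠ 0 := fun h h' => d₄ (K.N9_iso B.hω hu hX h h')
  set a₁ : F := y₁ * N9 B.ω u x₁ f₁ with ha₁
  set a₂ : F := y₂ * N9 B.ω u x₂ f₂ with ha₂
  set a₃ : F := y₃ * N9 B.ω u x₃ f₃ with ha₃
  set a₄ : F := N9 B.ω u (x₁ * (x₂ * x₃)) f₄ with ha₄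
  have hzz : a₁ + x₁ * (a₂ + x₂ * a₃) = a₄ := sub_eq_zero.mp hz
  have b₁ : a₁ ≠ 0 → K.S u x₁ a₁ = K.S u x₁ y₁ := fun h => by
    have h' := right_ne_zero_of_mul h
    rw [ha₁, K.mul3 _ _ _ _ hy₁ h', K.sym_N9 B.hω hu hx₁, add_zero]
  have b₂ : a₂ ≠ 0 → K.S u x₂ a₂ = K.S u x₂ y₂ := fun h => by
    have h' := right_ne_zero_of_mul h
    rw [ha₂, K.mul3 _ _ _ _ hy₂ h', K.sym_N9 B.hω hu hx₂, add_zero]
  have b₃ : a₃ ≠ 0 → K.S u x₃ a₃ = K.S u x₃ y₃ := fun h => by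
    have h' := right_ne_zero_of_mul h
    rw [ha₃, K.mul3 _ _ _ _ hy₃ h', K.sym_N9 B.hω hu hx₃, add_zero]
  have b₄ : a₄ ≠ 0 → K.S u (x₁ * (x₂ * x₃)) a₄ = 0 := fun h => K.sym_N9 B.hω hu hX _
  have z0 : N9 B.ω u x₁ 0 = 0 := by simp [N9, Eu, tr9]
  by_cases c₁₂ : a₂ ≠ 0 ∨ a₃ ≠ 0
  · rcases pair K hx₂ hy₂ hx₃ hy₃ b₂ b₃ c₁₂ with ⟨hs, p, q, hp, hq, h⟩ | ⟨p, q, hp, hq, h⟩
    · rcases pair K (b := a₂ + x₂ * a₃) (y₂ := a₂ + x₂ * a₃) hx₁ hy₁ (mul_ne_zero hx₂ hx₃) hs b₁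
        (fun _ => rfl) (Or.inr hs) with ⟨hs', p', q', hp', hq', h'⟩ | ⟨p', q', hp', hq', h'⟩
      · refine ⟨p', q', p, q, hp', hq', hp, hq, ?_⟩
        rw [add_assoc, h, ← add_assoc, h', hzz, b₄ (hzz ▸ hs'), zero_add]
      · refine ⟨p', q', p, q, hp', hq', hp, hq, ?_⟩
        rw [add_assoc, h, ← add_assoc, h']
    · exact ⟨x₁, y₁, p, q, hx₁, hy₁, hp, hq, by rw [add_assoc, h]⟩
  · push Not at c₁₂
    by_cases c₁ : a₁ = 0
    · -- everything vanishes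
      exfalso
      have e₄ : a₄ = 0 := by rw [← hzz, c₁, c₁₂.1, c₁₂.2]; ring
      apply hv
      have g₁ : f₁ = 0 := by
        by_contra h
        exact mul_ne_zero hy₁ (n₁ h) c₁
      have g₂ : f₂ = 0 := by
        by_contra h
        exact mul_ne_zero hy₂ (n₂ h) c₁₂.1
      have g₃ : f₃ = 0 := by
        by_contra h
        exact mul_ne_zero hy₃ (n₃ h) c₁₂.2
      have g₄ : f₄ = 0 := by
        by_contra h
        exact n₄ h e₄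
      funext i
      rcases i with (i | i) | (i | i)
      · exact congrFun g₁ i
      · exact congrFun g₂ i
      · exact congrFun g₃ i
      · exact congrFun g₄ i
    · rcases pair K (a := a₁) (b := 0) hx₁ hy₁ hx₂ hy₂ b₁ (fun h => absurd rfl h) (Or.inl c₁)
        with ⟨hs, p, q, hp, hq, h⟩ | ⟨p, q, hp, hq, h⟩
      · rw [mul_zero, add_zero] at h hs
        rcases pair K (a := a₁) (y₁ := a₁) (b := 0) (mul_ne_zero hx₁ hx₂) c₁ hx₃ hy₃ (fun _ => rfl)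
          (fun h => absurd rfl h) (Or.inl c₁)
          with ⟨hs', p', q', hp', hq', h'⟩ | ⟨p', q', hp', hq', h'⟩
        · rw [mul_zero, add_zero] at h'
          have e₁ : a₁ = a₄ := by rw [← hzz, c₁₂.1, c₁₂.2]; ring
          refine ⟨p', q', p, q, hp', hq', hp, hq, ?_⟩
          have : K.S u (x₁ * x₂ * x₃) a₁ = 0 := by
            rw [e₁, mul_assoc]
            exact b₄ (e₁ ▸ c₁)
          rw [this, zero_add] at h'
          rw [h, ← h']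
          abel
        · refine ⟨p', q', p, q, hp', hq', hp, hq, ?_⟩
          rw [h, ← h']
          abel
      · exact ⟨p, q, x₃, y₃, hp, hq, hx₃, hy₃, by rw [h]⟩

/-! ### A1 -/

theorem moveA1 (B : Base F) (K : Stein3 F A) (h1 : TL F 3 27 1) {a₁ a₂ a₃ : A}
    (ha₁ : Sing K a₁) (ha₂ : Sing K a₂) (ha₃ : Sing K a₃) :
    ∃ g₁ g₂ : A, G2 K g₁ ∧ G2 K g₂ ∧ a₁ + a₂ + a₃ = g₁ + g₂ := by
  obtain ⟨e₁, w₁, c₁, he₁, hw₁, hc₁, rfl⟩ := id ha₁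
  obtain ⟨e₂, w₂, c₂, he₂, hw₂, hc₂, rfl⟩ := id ha₂
  obtain ⟨e₃, w₃, c₃, he₃, hw₃, hc₃, rfl⟩ := id ha₃
  obtain ⟨v, hv, hz⟩ := h1 (IS ⊕ (IS ⊕ IS)) (fun _ v =>
      AS B.ω e₃ w₃ c₃ (fun i => v (Sum.inr (Sum.inr i)))
        + e₃ * (AS B.ω e₂ w₂ c₂ (fun i => v (Sum.inr (Sum.inl i)))
          + e₂ * AS B.ω e₁ w₁ c₁ (fun i => v (Sum.inl i))))
    (fun _ => form_add (form_comp (fun i => Sum.inr (Sum.inr i)) (isForm_AS _ _ _ _))
      (form_cmul _ (form_add (form_comp (fun i => Sum.inr (Sum.inl i)) (isForm_AS _ _ _ _))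
        (form_cmul _ (form_comp (fun i => Sum.inl i) (isForm_AS _ _ _ _))))))
    (by simp)
  have hz := hz 0
  set v₁ : IS → F := fun i => v (Sum.inl i) with hv₁
  set v₂ : IS → F := fun i => v (Sum.inr (Sum.inl i)) with hv₂
  set v₃ : IS → F := fun i => v (Sum.inr (Sum.inr i)) with hv₃
  set T₁ : F := AS B.ω e₁ w₁ c₁ v₁ with hT₁
  set T₂ : F := AS B.ω e₂ w₂ c₂ v₂ + e₂ * T₁ with hT₂
  have hz' : (0 : F) = AS B.ω e₃ w₃ c₃ v₃ + e₃ * T₂ := hz.symm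
  rcases eq_or_ne T₁ 0 with h10 | h10
  · rcases eq_or_ne T₂ 0 with h20 | h20
    · -- all three values are zero
      have hz3 : AS B.ω e₃ w₃ c₃ v₃ = 0 := by
        rw [h20, mul_zero, add_zero] at hz'
        exact hz'.symm
      have hz2 : AS B.ω e₂ w₂ c₂ v₂ = 0 := by
        rw [h10, mul_zero, add_zero] at hT₂
        rw [← hT₂, h20]
      by_cases k1 : v₁ = 0
      · by_cases k2 : v₂ = 0
        · by_cases k3 : v₃ = 0
          · exfalso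
            apply hv
            funext i
            rcases i with i | i | i
            · exact congrFun k1 i
            · exact congrFun k2 i
            · exact congrFun k3 i
          · have := node_single_zero B K he₃ hw₃ hc₃ v₃ k3 hz3
            exact ⟨_, _, ha₁.g2, ha₂.g2, by rw [this, add_zero]⟩
        · have := node_single_zero B K he₂ hw₂ hc₂ v₂ k2 hz2
          exact ⟨_, _, ha₁.g2, ha₃.g2, by rw [this, add_zero]⟩
      · have := node_single_zero B K he₁ hw₁ hc₁ v₁ k1 h10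
        exact ⟨_, _, ha₂.g2, ha₃.g2, by rw [this, zero_add]⟩
    · obtain ⟨p, q, p', q', hp, hq, hp', hq', k2⟩ :=
        node_single B K he₂ hw₂ hc₂ v₂ hT₂ (Or.inr h20)
      obtain ⟨r, s, r', s', hr, hs, hr', hs', k3⟩ :=
        node_single B K he₃ hw₃ hc₃ v₃ hz' (Or.inl h20)
      refine ⟨_, _, ha₁.g2, g2_or K (T := T₂) hp' hq' hr hs, ?_⟩
      rw [k2, k3, h10, K.z1, K.z1]
      abel
  · obtain ⟨m, n, m', n', hm, hn, hm', hn', k1⟩ :=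
      node_single B K he₁ hw₁ hc₁ v₁ (T := 0) (T' := T₁) (by rw [mul_zero, add_zero]) (Or.inr h10)
    obtain ⟨p, q, p', q', hp, hq, hp', hq', k2⟩ :=
      node_single B K he₂ hw₂ hc₂ v₂ hT₂ (Or.inl h10)
    rcases eq_or_ne T₂ 0 with h20 | h20
    · refine ⟨_, _, g2_or K (T := T₁) hm' hn' hp hq, ha₃.g2, ?_⟩
      rw [k1, k2, h20, K.z1, K.z1]
      abel
    · obtain ⟨r, s, r', s', hr, hs, hr', hs', k3⟩ :=
        node_single B K he₃ hw₃ hc₃ v₃ hz' (Or.inl h20)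
      refine ⟨_, _, g2_or K (T := T₁) hm' hn' hp hq, g2_or K (T := T₂) hp' hq' hr hs, ?_⟩
      rw [k1, k2, k3, K.z1, K.z1]
      abel

/-! ### STAR21 -/

/-- forms of the blocks with the extra variable `k` -/
theorem form_sblock {ι : Type*} (ω e w c : F) (g : IS → ι) (k : ι) :
    IsForm 3 (fun v : ι → F => AS ω e w c (fun i => v (g i)) + e * v k ^ 3) :=
  form_add (form_comp g (isForm_AS ω e w c)) (form_cmul e (form_cube k))

theorem form_gblock {ι : Type*} (ω u x y z t : F) (g : IG → ι) (k : ι) :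
    IsForm 3 (fun v : ι → F => AG ω u x y z t (fun i => v (g i)) + u * v k ^ 3) :=
  form_add (form_comp g (isForm_AG ω u x y z t)) (form_cmul u (form_cube k))

theorem moveStar (B : Base F) (K : Stein3 F A) (h2 : TL F 3 27 2) {g₁ g₂ a : A}
    (hg₁ : G2 K g₁) (hg₂ : G2 K g₂) (ha : Sing K a) :
    ∃ s₁ s₂ g : A, Sing K s₁ ∧ Sing K s₂ ∧ G2 K g ∧ g₁ + g₂ + a = s₁ + s₂ + g := by
  obtain ⟨u₁, x₁, y₁, z₁, t₁, hu₁, hx₁, hy₁, hz₁, ht₁, rfl⟩ := id hg₁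
  obtain ⟨u₂, x₂, y₂, z₂, t₂, hu₂, hx₂, hy₂, hz₂, ht₂, rfl⟩ := id hg₂
  obtain ⟨e, w, c, he, hw, hc, rfl⟩ := id ha
  let ι := (IG ⊕ Unit) ⊕ ((IG ⊕ Unit) ⊕ (IS ⊕ Unit))
  let φ₁ : (ι → F) → F := fun v => AG B.ω u₁ x₁ y₁ z₁ t₁ (fun i => v (Sum.inl (Sum.inl i)))
    + u₁ * v (Sum.inl (Sum.inr ())) ^ 3
  let φ₂ : (ι → F) → F := fun v => AG B.ω u₂ x₂ y₂ z₂ t₂ (fun i => v (Sum.inr (Sum.inl (Sum.inl i))))
    + u₂ * v (Sum.inr (Sum.inl (Sum.inr ()))) ^ 3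
  let φ₃ : (ι → F) → F := fun v => AS B.ω e w c (fun i => v (Sum.inr (Sum.inr (Sum.inl i))))
    + e * v (Sum.inr (Sum.inr (Sum.inr ()))) ^ 3
  have f₁ : IsForm 3 φ₁ := form_gblock _ _ _ _ _ _ _ _
  have f₂ : IsForm 3 φ₂ := form_gblock _ _ _ _ _ _ _ _
  have f₃ : IsForm 3 φ₃ := form_sblock _ _ _ _ _ _
  obtain ⟨v, hv, hz⟩ := h2 ι ![fun v => φ₁ v - φ₃ v, fun v => φ₂ v - φ₃ v]
    (by
      intro i
      fin_cases i
      · exact form_sub f₁ f₃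
      · exact form_sub f₂ f₃)
    (by simp [ι])
  have e₁ : φ₁ v = φ₃ v := sub_eq_zero.mp (hz 0)
  have e₂ : φ₂ v = φ₃ v := sub_eq_zero.mp (hz 1)
  rcases eq_or_ne (φ₃ v) 0 with h0 | h0
  · rw [h0] at e₁ e₂
    by_cases k₁ : (fun i => v (Sum.inl (Sum.inl i)) : IG → F) ≠ 0 ∨ v (Sum.inl (Sum.inr ())) ≠ 0
    · obtain ⟨r, r', hr, hr', h⟩ := gblock_zero B K hu₁ hx₁ hy₁ hz₁ ht₁ _ e₁ k₁
      refine ⟨_, _, _, sing_or K (T := u₁) hr hr', ha, hg₂, ?_⟩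
      rw [h]
      abel
    by_cases k₂ : (fun i => v (Sum.inr (Sum.inl (Sum.inl i))) : IG → F) ≠ 0
        ∨ v (Sum.inr (Sum.inl (Sum.inr ()))) ≠ 0
    · obtain ⟨r, r', hr, hr', h⟩ := gblock_zero B K hu₂ hx₂ hy₂ hz₂ ht₂ _ e₂ k₂
      refine ⟨_, _, _, sing_or K (T := u₂) hr hr', ha, hg₁, ?_⟩
      rw [h]
      abel
    by_cases k₃ : (fun i => v (Sum.inr (Sum.inr (Sum.inl i))) : IS → F) ≠ 0
        ∨ v (Sum.inr (Sum.inr (Sum.inr ()))) ≠ 0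
    · have h := sblock_zero B K he hw hc _ h0 k₃
      refine ⟨_, _, _, sing_or K (T := u₁) hx₁ hy₁, sing_or K (T := u₁) hz₁ ht₁, hg₂, ?_⟩
      rw [h]
      abel
    · exfalso
      push Not at k₁ k₂ k₃
      apply hv
      funext i
      rcases i with (i | i) | ((i | i) | (i | i))
      · exact congrFun k₁.1 i
      · exact k₁.2
      · exact congrFun k₂.1 i
      · exact k₂.2
      · exact congrFun k₃.1 i
      · exact k₃.2
  · obtain ⟨p, q, hp, hq, k3⟩ := sblock B K he hw hc _ (T := φ₃ v) rfl h0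
    obtain ⟨p₁, q₁, r₁, s₁, hp₁, hq₁, hr₁, hs₁, k1⟩ :=
      gblock B K hu₁ hx₁ hy₁ hz₁ ht₁ _ (T := φ₃ v) e₁.symm h0
    obtain ⟨p₂, q₂, r₂, s₂, hp₂, hq₂, hr₂, hs₂, k2⟩ :=
      gblock B K hu₂ hx₂ hy₂ hz₂ ht₂ _ (T := φ₃ v) e₂.symm h0
    obtain ⟨x, y, z, t, hx, hy, hz', ht, k⟩ := grp32 B K (h2.mono) h0 hp hq hp₁ hq₁ hp₂ hq₂
    refine ⟨_, _, _, sing_or K (T := u₁) hr₁ hs₁, sing_or K (T := u₂) hr₂ hs₂,
      g2_or K (T := φ₃ v) hx hy hz' ht, ?_⟩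
    rw [k1, k2, k3, ← k]
    abel

/-! ### the move M: `3` singles and `1` group become `1` single and `2` groups -/

theorem moveM (B : Base F) (K : Stein3 F A) (h2 : TL F 3 27 2) {a₁ a₂ a₃ g : A}
    (ha₁ : Sing K a₁) (ha₂ : Sing K a₂) (ha₃ : Sing K a₃) (hg : G2 K g) :
    ∃ s g₁ g₂ : A, Sing K s ∧ G2 K g₁ ∧ G2 K g₂ ∧ a₁ + a₂ + a₃ + g = s + g₁ + g₂ := by
  obtain ⟨e₁, w₁, c₁, he₁, hw₁, hc₁, rfl⟩ := id ha₁
  obtain ⟨e₂, w₂, c₂, he₂, hw₂, hc₂, rfl⟩ := id ha₂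
  obtain ⟨e₃, w₃, c₃, he₃, hw₃, hc₃, rfl⟩ := id ha₃
  obtain ⟨u, x, y, z, t, hu, hx, hy, hz, ht, rfl⟩ := id hg
  let ι := (IS ⊕ Unit) ⊕ (IS ⊕ ((IG ⊕ Unit) ⊕ (IS ⊕ Unit)))
  let φ₁ : (ι → F) → F := fun v => AS B.ω e₁ w₁ c₁ (fun i => v (Sum.inl (Sum.inl i)))
    + e₁ * v (Sum.inl (Sum.inr ())) ^ 3
  let ψ₂ : (ι → F) → F := fun v => AS B.ω e₂ w₂ c₂ (fun i => v (Sum.inr (Sum.inl i)))
  let φ₂ : (ι → F) → F := fun v => ψ₂ v + e₂ * φ₁ v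
  let φ₃ : (ι → F) → F := fun v =>
    AG B.ω u x y z t (fun i => v (Sum.inr (Sum.inr (Sum.inl (Sum.inl i)))))
      + u * v (Sum.inr (Sum.inr (Sum.inl (Sum.inr ())))) ^ 3
  let φ₄ : (ι → F) → F := fun v =>
    AS B.ω e₃ w₃ c₃ (fun i => v (Sum.inr (Sum.inr (Sum.inr (Sum.inl i)))))
      + e₃ * v (Sum.inr (Sum.inr (Sum.inr (Sum.inr ())))) ^ 3
  have f₁ : IsForm 3 φ₁ := form_sblock _ _ _ _ _ _
  have f₂' : IsForm 3 ψ₂ := form_comp _ (isForm_AS _ _ _ _)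
  have f₂ : IsForm 3 φ₂ := form_add f₂' (form_cmul _ f₁)
  have f₃ : IsForm 3 φ₃ := form_gblock _ _ _ _ _ _ _ _
  have f₄ : IsForm 3 φ₄ := form_sblock _ _ _ _ _ _
  obtain ⟨v, hv, hzz⟩ := h2 ι ![fun v => φ₂ v - φ₃ v, fun v => φ₂ v - φ₄ v]
    (by
      intro i
      fin_cases i
      · exact form_sub f₂ f₃
      · exact form_sub f₂ f₄)
    (by simp [ι])
  have q₃ : φ₂ v = φ₃ v := sub_eq_zero.mp (hzz 0)
  have q₄ : φ₂ v = φ₄ v := sub_eq_zero.mp (hzz 1)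
  have q₂ : φ₂ v = ψ₂ v + e₂ * φ₁ v := rfl
  have q₁ : φ₁ v = AS B.ω e₁ w₁ c₁ (fun i => v (Sum.inl (Sum.inl i)))
    + e₁ * v (Sum.inl (Sum.inr ())) ^ 3 := rfl
  rcases eq_or_ne (φ₁ v) 0 with h10 | h10
  · rcases eq_or_ne (φ₂ v) 0 with h20 | h20
    · have z₂ : ψ₂ v = 0 := by
        rw [h10, mul_zero, add_zero] at q₂
        rw [← q₂, h20]
      rw [h20] at q₃ q₄
      by_cases k₁ : (fun i => v (Sum.inl (Sum.inl i)) : IS → F) ≠ 0 ∨ v (Sum.inl (Sum.inr ())) ≠ 0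
      · have h := sblock_zero B K he₁ hw₁ hc₁ _ (q₁.symm.trans h10) k₁
        exact ⟨_, _, _, ha₂, ha₃.g2, hg, by rw [h, zero_add]⟩
      by_cases k₂ : (fun i => v (Sum.inr (Sum.inl i)) : IS → F) ≠ 0
      · have h := node_single_zero B K he₂ hw₂ hc₂ _ k₂ z₂
        exact ⟨_, _, _, ha₁, ha₃.g2, hg, by rw [h, add_zero]⟩
      by_cases k₄ : (fun i => v (Sum.inr (Sum.inr (Sum.inr (Sum.inl i)))) : IS → F) ≠ 0
          ∨ v (Sum.inr (Sum.inr (Sum.inr (Sum.inr ())))) ≠ 0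
      · have h := sblock_zero B K he₃ hw₃ hc₃ _ q₄.symm k₄
        exact ⟨_, _, _, ha₁, ha₂.g2, hg, by rw [h, add_zero]⟩
      by_cases k₃ : (fun i => v (Sum.inr (Sum.inr (Sum.inl (Sum.inl i)))) : IG → F) ≠ 0
          ∨ v (Sum.inr (Sum.inr (Sum.inl (Sum.inr ())))) ≠ 0
      · obtain ⟨r, r', hr, hr', h⟩ := gblock_zero B K hu hx hy hz ht _ q₃.symm k₃
        obtain ⟨g₁, g₂, hg₁, hg₂, h'⟩ := moveA1 B K h2.mono ha₁ ha₂ ha₃
        refine ⟨_, _, _, sing_or K (T := u) hr hr', hg₁, hg₂, ?_⟩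
        rw [h', h]
        abel
      · exfalso
        push Not at k₁ k₂ k₃ k₄
        apply hv
        funext i
        rcases i with (i | i) | (i | ((i | i) | (i | i)))
        · exact congrFun k₁.1 i
        · exact k₁.2
        · exact congrFun k₂ i
        · exact congrFun k₃.1 i
        · exact k₃.2
        · exact congrFun k₄.1 i
        · exact k₄.2
    · obtain ⟨p, q, p', q', hp, hq, hp', hq', l₂⟩ :=
        node_single B K he₂ hw₂ hc₂ _ (T := φ₁ v) (T' := φ₂ v) q₂ (Or.inr h20)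
      obtain ⟨p₃, q₃', r, r', hp₃, hq₃, hr, hr', l₃⟩ :=
        gblock B K hu hx hy hz ht _ (T := φ₂ v) q₃ h20
      obtain ⟨p₄, q₄', hp₄, hq₄, l₄⟩ := sblock B K he₃ hw₃ hc₃ _ (T := φ₂ v) q₄ h20
      obtain ⟨x', y', z', t', hx', hy', hz', ht', k⟩ :=
        grp32 B K h2.mono h20 hp' hq' hp₃ hq₃ hp₄ hq₄
      refine ⟨_, _, _, sing_or K (T := u) hr hr', ha₁.g2, g2_or K (T := φ₂ v) hx' hy' hz' ht', ?_⟩
      rw [l₂, l₃, l₄, ← k, h10, K.z1]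
      abel
  · obtain ⟨p₁, q₁', hp₁, hq₁, l₁⟩ := sblock B K he₁ hw₁ hc₁ _ (T := φ₁ v) q₁ h10
    obtain ⟨p, q, p', q', hp, hq, hp', hq', l₂⟩ :=
      node_single B K he₂ hw₂ hc₂ _ (T := φ₁ v) (T' := φ₂ v) q₂ (Or.inl h10)
    rcases eq_or_ne (φ₂ v) 0 with h20 | h20
    · refine ⟨_, _, _, ha₃, g2_or K (T := φ₁ v) hp₁ hq₁ hp hq, hg, ?_⟩
      rw [l₁, l₂, h20, K.z1]
      abel
    · obtain ⟨p₃, q₃', r, r', hp₃, hq₃, hr, hr', l₃⟩ :=
        gblock B K hu hx hy hz ht _ (T := φ₂ v) q₃ h20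
      obtain ⟨p₄, q₄', hp₄, hq₄, l₄⟩ := sblock B K he₃ hw₃ hc₃ _ (T := φ₂ v) q₄ h20
      obtain ⟨x', y', z', t', hx', hy', hz', ht', k⟩ :=
        grp32 B K h2.mono h20 hp' hq' hp₃ hq₃ hp₄ hq₄
      refine ⟨_, _, _, sing_or K (T := u) hr hr', g2_or K (T := φ₁ v) hp₁ hq₁ hp hq,
        g2_or K (T := φ₂ v) hx' hy' hz' ht', ?_⟩
      rw [l₁, l₂, l₃, l₄, ← k]
      abel

/-! ### five symbols are four -/

theorem five_four (B : Base F) (K : Stein3 F A) (h2 : TL F 3 27 2) {a₁ a₂ a₃ a₄ a₅ : A}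
    (h₁ : Sing K a₁) (h₂ : Sing K a₂) (h₃ : Sing K a₃) (h₄ : Sing K a₄) (h₅ : Sing K a₅) :
    ∃ b₁ b₂ b₃ b₄ : A, Sing K b₁ ∧ Sing K b₂ ∧ Sing K b₃ ∧ Sing K b₄ ∧
      a₁ + a₂ + a₃ + a₄ + a₅ = b₁ + b₂ + b₃ + b₄ := by
  obtain ⟨g₁, g₂, hg₁, hg₂, k₁⟩ := moveA1 B K h2.mono h₁ h₂ h₃
  obtain ⟨s₁, s₂, g, hs₁, hs₂, hg, k₂⟩ := moveStar B K h2 hg₁ hg₂ h₄
  obtain ⟨s, g₁', g₂', hs, hg₁', hg₂', k₃⟩ := moveM B K h2 hs₁ hs₂ h₅ hg
  obtain ⟨s₁', s₂', g', hs₁', hs₂', hg', k₄⟩ := moveStar B K h2 hg₁' hg₂' hs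
  obtain ⟨u, x, y, z, t, hu, hx, hy, hz, ht, rfl⟩ := hg'
  refine ⟨s₁', s₂', _, _, hs₁', hs₂', sing_or K (T := u) hx hy, sing_or K (T := u) hz ht, ?_⟩
  rw [k₁, k₂, add_assoc (s₁' + s₂'), ← k₄]
  calc s₁ + s₂ + g + a₅ = s₁ + s₂ + a₅ + g := by abel
    _ = s + g₁' + g₂' := k₃
    _ = g₁' + g₂' + s := by abel

theorem len_sing {K : Stein3 F A} {k : ℕ} {a : A} :
    Len K k a ↔ ∃ s : Fin k → A, (∀ i, Sing K (s i)) ∧ a = ∑ i, s i := by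
  constructor
  · rintro ⟨u, x, y, h, rfl⟩
    exact ⟨fun i => K.S (u i) (x i) (y i), fun i => ⟨u i, x i, y i, (h i).1, (h i).2.1, (h i).2.2,
      rfl⟩, rfl⟩
  · rintro ⟨s, hs, rfl⟩
    choose u x y hu hx hy h using hs
    exact ⟨u, x, y, fun i => ⟨hu i, hx i, hy i⟩, Finset.sum_congr rfl fun i _ => h i⟩

theorem len54 (B : Base F) (K : Stein3 F A) (h2 : TL F 3 27 2) {a : A} (h : Len K 5 a) :
    Len K 4 a := by
  rw [len_sing] at h ⊢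
  obtain ⟨s, hs, rfl⟩ := h
  obtain ⟨b₁, b₂, b₃, b₄, h₁, h₂, h₃, h₄, k⟩ := five_four B K h2 (hs 0) (hs 1) (hs 2) (hs 3) (hs 4)
  refine ⟨![b₁, b₂, b₃, b₄], ?_, ?_⟩
  · intro i
    fin_cases i
    · exact h₁
    · exact h₂
    · exact h₃
    · exact h₄
  · rw [Fin.sum_univ_five, k, Fin.sum_univ_four]
    rfl

theorem len_succ {K : Stein3 F A} {k : ℕ} {a : A} (h : Len K k a) : Len K (k + 1) a := by
  rw [len_sing] at h ⊢
  obtain ⟨s, hs, rfl⟩ := h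
  refine ⟨Fin.snoc (α := fun _ => A) s 0, ?_, ?_⟩
  · intro i
    refine Fin.lastCases ?_ (fun i => ?_) i
    · rw [Fin.snoc_last]
      exact sing_zero K
    · rw [Fin.snoc_castSucc]
      exact hs i
  · rw [Fin.sum_univ_castSucc]
    simp

theorem len_le {K : Stein3 F A} {k l : ℕ} {a : A} (h : Len K k a) (hkl : k ≤ l) : Len K l a := by
  induction l, hkl using Nat.le_induction with
  | base => exact h
  | succ n _ ih => exact len_succ ih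

/-- **every sum of symbols is a sum of four symbols** -/
theorem len4 (B : Base F) (K : Stein3 F A) (h2 : TL F 3 27 2) (N : ℕ) (a : A)
    (h : Len K N a) : Len K 4 a := by
  induction N generalizing a with
  | zero => exact len_le h (Nat.zero_le _)
  | succ N ih =>
    rw [len_sing] at h
    obtain ⟨s, hs, rfl⟩ := h
    have h' := ih (∑ i : Fin N, s i.castSucc) (len_sing.mpr ⟨_, fun i => hs i.castSucc, rfl⟩)
    rw [len_sing] at h'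
    obtain ⟨b, hb, hb'⟩ := h'
    apply len54 B K h2
    rw [len_sing]
    refine ⟨Fin.snoc (α := fun _ => A) b (s (Fin.last N)), ?_, ?_⟩
    · intro i
      refine Fin.lastCases ?_ (fun i => ?_) i
      · rw [Fin.snoc_last]
        exact hs _
      · rw [Fin.snoc_castSucc]
        exact hb i
    · rw [Fin.sum_univ_castSucc, hb', Fin.sum_univ_castSucc (n := 4)]
      simp only [Fin.snoc_castSucc, Fin.snoc_last]

end Pool.K3
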