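import Pool.Agent.K3.Defs

/-! # First consequences of the relations in `Stein3` -/

set_option autoImplicit false

namespace Pool.K3

namespace Stein3

variable {F A : Type*} [Field F] [AddCommGroup A] (K : Stein3 F A)

theorem one1 (b c : F) : K.S 1 b c = 0 := by
  have h := K.mul1 1 1 b c one_ne_zero one_ne_zero
  rw [one_mul] at h
  exact (left_eq_add.mp h)

theorem one2 (a c : F) : K.S a 1 c = 0 := by
  have h := K.mul2 a 1 1 c one_ne_zero one_ne_zero
  rw [one_mul] at h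
  exact (left_eq_add.mp h)

theorem one3 (a b : F) : K.S a b 1 = 0 := by
  have h := K.mul3 a b 1 1 one_ne_zero one_ne_zero
  rw [one_mul] at h
  exact (left_eq_add.mp h)

theorem inv1 (a b c : F) : K.S a⁻¹ b c = - K.S a b c := by
  rcases eq_or_ne a 0 with rfl | ha
  · rw [inv_zero, K.z1, neg_zero]
  · have h := K.mul1 a a⁻¹ b c ha (inv_ne_zero ha)
    rw [mul_inv_cancel₀ ha, K.one1] at h
    exact (neg_eq_of_add_eq_zero_right h.symm).symm

theorem inv2 (a b c : F) : K.S a b⁻¹ c = - K.S a b c := by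
  rcases eq_or_ne b 0 with rfl | ha
  · rw [inv_zero, K.z2, neg_zero]
  · have h := K.mul2 a b b⁻¹ c ha (inv_ne_zero ha)
    rw [mul_inv_cancel₀ ha, K.one2] at h
    exact (neg_eq_of_add_eq_zero_right h.symm).symm

theorem inv3 (a b c : F) : K.S a b c⁻¹ = - K.S a b c := by
  rcases eq_or_ne c 0 with rfl | ha
  · rw [inv_zero, K.z3, neg_zero]
  · have h := K.mul3 a b c c⁻¹ ha (inv_ne_zero ha)
    rw [mul_inv_cancel₀ ha, K.one3] at h
    exact (neg_eq_of_add_eq_zero_right h.symm).symm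

theorem div1 {a a' : F} (b c : F) (ha : a ≠ 0) (ha' : a' ≠ 0) :
    K.S (a / a') b c = K.S a b c - K.S a' b c := by
  rw [div_eq_mul_inv, K.mul1 _ _ _ _ ha (inv_ne_zero ha'), K.inv1, sub_eq_add_neg]

theorem div2 (a : F) {b b' : F} (c : F) (hb : b ≠ 0) (hb' : b' ≠ 0) :
    K.S a (b / b') c = K.S a b c - K.S a b' c := by
  rw [div_eq_mul_inv, K.mul2 _ _ _ _ hb (inv_ne_zero hb'), K.inv2, sub_eq_add_neg]

theorem div3 (a b : F) {c c' : F} (hc : c ≠ 0) (hc' : c' ≠ 0) :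
    K.S a b (c / c') = K.S a b c - K.S a b c' := by
  rw [div_eq_mul_inv, K.mul3 _ _ _ _ hc (inv_ne_zero hc'), K.inv3, sub_eq_add_neg]

include K in
theorem tor' (z : A) : z + (z + z) = 0 := by
  have h := K.tor z
  rw [show (3 : ℕ) = 2 + 1 from rfl, succ_nsmul', two_nsmul] at h
  exact h

theorem cube1 (a b c : F) : K.S (a ^ 3) b c = 0 := by
  rcases eq_or_ne a 0 with rfl | ha
  · rw [zero_pow three_ne_zero, K.z1]
  · rw [show a ^ 3 = a * (a * a) by ring, K.mul1 _ _ _ _ ha (mul_ne_zero ha ha),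
      K.mul1 _ _ _ _ ha ha]
    exact K.tor' _

theorem cube2 (a b c : F) : K.S a (b ^ 3) c = 0 := by
  rcases eq_or_ne b 0 with rfl | ha
  · rw [zero_pow three_ne_zero, K.z2]
  · rw [show b ^ 3 = b * (b * b) by ring, K.mul2 _ _ _ _ ha (mul_ne_zero ha ha),
      K.mul2 _ _ _ _ ha ha]
    exact K.tor' _

theorem cube3 (a b c : F) : K.S a b (c ^ 3) = 0 := by
  rcases eq_or_ne c 0 with rfl | ha
  · rw [zero_pow three_ne_zero, K.z3]
  · rw [show c ^ 3 = c * (c * c) by ring, K.mul3 _ _ _ _ ha (mul_ne_zero ha ha),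
      K.mul3 _ _ _ _ ha ha]
    exact K.tor' _

theorem neg1 (a b c : F) : K.S (-a) b c = K.S a b c := by
  rcases eq_or_ne a 0 with rfl | ha
  · rw [neg_zero]
  · rw [show -a = a * (-1) ^ 3 by ring,
      K.mul1 _ _ _ _ ha (pow_ne_zero 3 (neg_ne_zero.mpr one_ne_zero)), K.cube1, add_zero]

theorem neg2 (a b c : F) : K.S a (-b) c = K.S a b c := by
  rcases eq_or_ne b 0 with rfl | ha
  · rw [neg_zero]
  · rw [show -b = b * (-1) ^ 3 by ring,
      K.mul2 _ _ _ _ ha (pow_ne_zero 3 (neg_ne_zero.mpr one_ne_zero)), K.cube2, add_zero]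

theorem neg3 (a b c : F) : K.S a b (-c) = K.S a b c := by
  rcases eq_or_ne c 0 with rfl | ha
  · rw [neg_zero]
  · rw [show -c = c * (-1) ^ 3 by ring,
      K.mul3 _ _ _ _ ha (pow_ne_zero 3 (neg_ne_zero.mpr one_ne_zero)), K.cube3, add_zero]

/-- `{a, a, c} = 0` -/
theorem diag12 (a c : F) : K.S a a c = 0 := by
  rcases eq_or_ne a 0 with rfl | ha
  · exact K.z1 _ _
  rcases eq_or_ne a 1 with rfl | h1
  · exact K.one1 _ _
  have hs : (1 : F) - a ≠ 0 := sub_ne_zero.mpr (Ne.symm h1)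
  have hi : (1 : F) - a⁻¹ ≠ 0 := by
    rw [sub_ne_zero]
    intro h
    exact h1 (by rw [← inv_inv a, ← h, inv_one])
  have e : -a = (1 - a) / (1 - a⁻¹) := by
    field_simp
    ring
  rw [← K.neg2, e, K.div2 _ _ hs hi, K.st12 a (1 - a) c ha hs (by ring)]
  have h2 := K.st12 a⁻¹ (1 - a⁻¹) c (inv_ne_zero ha) hi (by ring)
  rw [K.inv1, neg_eq_zero] at h2
  rw [h2, sub_zero]

/-- `{a, b, b} = 0` -/
theorem diag23 (a b : F) : K.S a b b = 0 := by
  rcases eq_or_ne b 0 with rfl | ha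
  · exact K.z2 _ _
  rcases eq_or_ne b 1 with rfl | h1
  · exact K.one2 _ _
  have hs : (1 : F) - b ≠ 0 := sub_ne_zero.mpr (Ne.symm h1)
  have hi : (1 : F) - b⁻¹ ≠ 0 := by
    rw [sub_ne_zero]
    intro h
    exact h1 (by rw [← inv_inv b, ← h, inv_one])
  have e : -b = (1 - b) / (1 - b⁻¹) := by
    field_simp
    ring
  rw [← K.neg3, e, K.div3 _ _ hs hi, K.st23 a b (1 - b) ha hs (by ring)]
  have h2 := K.st23 a b⁻¹ (1 - b⁻¹) (inv_ne_zero ha) hi (by ring)
  rw [K.inv2, neg_eq_zero] at h2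
  rw [h2, sub_zero]

theorem swap12 (a b c : F) : K.S b a c = - K.S a b c := by
  rcases eq_or_ne a 0 with rfl | ha
  · rw [K.z1, K.z2, neg_zero]
  rcases eq_or_ne b 0 with rfl | hb
  · rw [K.z1, K.z2, neg_zero]
  have h := K.diag12 (a * b) c
  rw [K.mul1 _ _ _ _ ha hb, K.mul2 _ _ _ _ ha hb, K.mul2 _ _ _ _ ha hb, K.diag12, K.diag12,
    zero_add, add_zero] at h
  exact (neg_eq_of_add_eq_zero_right h).symm

theorem swap23 (a b c : F) : K.S a c b = - K.S a b c := by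
  rcases eq_or_ne b 0 with rfl | ha
  · rw [K.z2, K.z3, neg_zero]
  rcases eq_or_ne c 0 with rfl | hb
  · rw [K.z2, K.z3, neg_zero]
  have h := K.diag23 a (b * c)
  rw [K.mul2 _ _ _ _ ha hb, K.mul3 _ _ _ _ ha hb, K.mul3 _ _ _ _ ha hb, K.diag23, K.diag23,
    zero_add, add_zero] at h
  exact (neg_eq_of_add_eq_zero_right h).symm

theorem cyc (a b c : F) : K.S b c a = K.S a b c := by
  rw [K.swap23, K.swap12, neg_neg]

theorem cyc' (a b c : F) : K.S c a b = K.S a b c := by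
  rw [K.cyc b c a, K.cyc a b c]

theorem diag13 (a b : F) : K.S a b a = 0 := by
  rw [K.swap23, K.diag12, neg_zero]

/-- relation (R) in the first two entries -/
theorem R12 {a b s : F} (c : F) (ha : a ≠ 0) (hb : b ≠ 0) (hs : s ≠ 0) (h : a + b = s) :
    K.S a b c = K.S (a / b) s c := by
  have h0 := K.st12 (a / s) (b / s) c (div_ne_zero ha hs) (div_ne_zero hb hs)
    (by rw [← add_div, h, div_self hs])
  rw [K.div1 _ _ ha hs, K.div2 _ _ hb hs, K.div2 _ _ hb hs, K.diag12, sub_zero] at h0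
  rw [K.div1 _ _ ha hb, K.swap12 s b]
  have : K.S a b c = K.S a s c + K.S s b c := by
    rw [sub_sub, sub_eq_zero] at h0
    exact h0
  rw [this, sub_neg_eq_add]

/-- relation (R) in the last two entries -/
theorem R23 {b c s : F} (a : F) (hb : b ≠ 0) (hc : c ≠ 0) (hs : s ≠ 0) (h : b + c = s) :
    K.S a b c = K.S a (b / c) s := by
  rw [← K.cyc, K.R12 a hb hc hs h, K.cyc a]

end Stein3

end Pool.K3
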