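import Pool.Agent.K3.Defs
import Pool.Agent.Helper13.TL.Main

/-! # The theorem of Tsen, Lang and Nagata for systems over `k(x_1, ..., x_m)` -/

set_option autoImplicit false

namespace Pool.K3

/-- `k(x_1, …, x_m)`, `k` algebraically closed: `r` forms of degree `d` in more than `d ^ m * r`
variables have a common nontrivial zero. -/
theorem tl (k : Type) [Field k] [IsAlgClosed k] (m d r : ℕ) (hd : 0 < d) :
    TL (FractionRing (MvPolynomial (Fin m) k)) d (d ^ m) r := by
  intro ι _ φ hφ hc
  choose P hP hPφ using hφ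
  obtain ⟨x, hx, h0⟩ := Pool.Agent.Helper13.TL.strongC_ratfunc k m (Fin r) ι d P hd hP
    (by rw [Fintype.card_fin, mul_comm]; exact hc)
  exact ⟨x, hx, fun i => by rw [← hPφ i]; exact h0 i⟩

end Pool.K3
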